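import Pool.Agent.H.MP_5e5cb0.A

namespace Pool.Agent.H.MP_df74ac_an

open Set Filter Topology Pool.Agent.H.MP_5e5cb0 Cardinal Submodule TopologicalSpace

variable {X : Type} [NormedAddCommGroup X] [NormedSpace ℝ X]

def WC (K : Set X) : Prop := ∀ (ι : Type) (U : Ultrafilter ι) (y : ι → X), (∀ᶠ i in U, y i ∈ K) →
  ∃ x ∈ K, ∀ f : X →L[ℝ] ℝ, Tendsto (fun i => f (y i)) U (𝓝 (f x))

lemma wc_of {K : Set X} (h : IsCompact (X := WeakSpace ℝ X) K) : WC K := fun ι U y hy => by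
  obtain ⟨x, hx, k⟩ := h.ultrafilter_le_nhds' (U.map y) hy
  exact ⟨x, hx, fun f => ((WeakBilin.eval_continuous (topDualPairing ℝ X).flip f).tendsto x).comp k⟩

lemma wcl {Y : Set X} (c : Convex ℝ Y) (h : IsClosed Y) {ι : Type} {U : Filter ι} [U.NeBot]
    {y : ι → X} (hy : ∀ᶠ i in U, y i ∈ Y) {x : X}
    (k : ∀ f : X →L[ℝ] ℝ, Tendsto (fun i => f (y i)) U (𝓝 (f x))) : x ∈ Y := by_contra fun j => by
  obtain ⟨f, u, h1, h2⟩ := geometric_hahn_banach_point_closed c h j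
  exact h1.not_ge (ge_of_tendsto (k f) (hy.mono fun i hi => (h2 _ hi).le))

lemma rlim {ι : Type} (U : Ultrafilter ι) {a : ι → ℝ} {M : ℝ} (h : ∀ᶠ i in U, |a i| ≤ M) :
    ∃ z, |z| ≤ M ∧ Tendsto a U (𝓝 z) := by
  obtain ⟨z, hz, k⟩ := (isCompact_Icc (a := -M) (b := M)).ultrafilter_le_nhds' (U.map a)
    (h.mono fun i => abs_le.1)
  exact ⟨z, abs_le.2 hz, k⟩

lemma WC.bdd {K : Set X} (h : WC K) : ∃ R ≥ 0, ∀ x ∈ K, ‖x‖ ≤ R := by
  obtain ⟨R, hR⟩ := banach_steinhaus (g := fun x : K => NormedSpace.inclusionInDoubleDual ℝ X x)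
    fun f => by
      by_contra k
      push Not at k
      choose y hy using fun n : ℕ => k n
      obtain ⟨x, -, l⟩ := h ℕ (hyperfilter ℕ) (fun n => y n) (Eventually.of_forall fun n => (y n).2)
      exact not_tendsto_nhds_of_tendsto_atTop (tendsto_atTop_mono (fun n => (hy n).le)
        (tendsto_natCast_atTop_atTop.mono_left Nat.hyperfilter_le_atTop)) _ (l f).norm
  exact ⟨max R 0, le_max_right _ _, fun x hx => le_max_of_le_left
    (((NormedSpace.inclusionInDoubleDualLi ℝ).norm_map x).symm.trans_le (hR ⟨x, hx⟩))⟩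

structure Ab (L : Set X) (R : ℝ) : Prop where
  wc : WC L
  sub : ∀ x ∈ L, ∀ y ∈ L, (4 : ℝ)⁻¹ • (x - y) ∈ L
  sm : ∀ x ∈ L, ∀ t : ℝ, |t| ≤ 1 → t • x ∈ L
  bd : ∀ x ∈ L, ‖x‖ ≤ R
  ze : 0 ∈ L

lemma exL [CompleteSpace X] {K : Set X} (h : WC K) (ne : K.Nonempty) : ∃ L R, K ⊆ L ∧ Ab L R := by
  obtain ⟨R, R0, hR⟩ := h.bdd
  obtain ⟨M, hM⟩ : ∃ M : Set X, ∀ x, x ∈ M ↔ ∃ t : ℝ, |t| ≤ 1 ∧ ∃ k ∈ K, t • k = x := ⟨_, fun _ => Iff.rfl⟩
  have m1 : ∀ x ∈ M, ∀ t : ℝ, |t| ≤ 1 → t • x ∈ M := fun x hx t ht => by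
    obtain ⟨s, hs, k, hk, rfl⟩ := (hM x).1 hx
    exact (hM _).2 ⟨t * s, by rw [abs_mul]; exact mul_le_one₀ ht (abs_nonneg _) hs, k, hk,
      (smul_smul _ _ _).symm⟩
  have m0 : (0 : X) ∈ M := (hM _).2 ⟨0, by simp, _, ne.some_mem, zero_smul _ _⟩
  have m2 : ∀ x ∈ M, ‖x‖ ≤ R := fun x hx => by
    obtain ⟨s, hs, k, hk, rfl⟩ := (hM x).1 hx
    rw [norm_smul]
    exact (mul_le_of_le_one_left (norm_nonneg _) hs).trans (hR k hk)
  have m3 : WC M := fun ι U y hy => by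
    choose! t t1 k k1 k2 using fun i => (hM (y i)).1
    obtain ⟨s, s1, s2⟩ := rlim U (hy.mono t1)
    obtain ⟨x, x1, x2⟩ := h ι U k (hy.mono k1)
    exact ⟨s • x, (hM _).2 ⟨s, s1, x, x1, rfl⟩, fun f => by
      rw [map_smul]
      exact (s2.mul (x2 f)).congr' (hy.mono fun i hi => by simp [← k2 i hi])⟩
  obtain ⟨w, hw⟩ : ∃ w : ℕ → ℝ, ∀ j, w j = 1 / ((j : ℝ) + 1) ^ 2 := ⟨_, fun _ => rfl⟩
  have w0 : ∀ j, 0 < w j := fun j => hw j ▸ by positivity
  have ws : Summable w := by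
    simpa [funext hw] using (summable_nat_add_iff 1).2 (Real.summable_one_div_nat_pow.2 one_lt_two)
  have wb : ∀ m : ℕ → X, (∀ j, m j ∈ M) → ∀ j, ‖w j • m j‖ ≤ w j * R := fun m hm j => by
    rw [norm_smul, Real.norm_of_nonneg (w0 j).le]
    exact mul_le_mul_of_nonneg_left (m2 _ (hm j)) (w0 j).le
  refine ⟨{x | ∃ m : ℕ → X, (∀ j, m j ∈ M) ∧ HasSum (fun j => w j • m j) x}, ∑' j, w j * R,
    fun x hx => ⟨Pi.single 0 x, fun j => ?_, ?_⟩, fun ι U y hy => ?_, ?_, ?_, ?_,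
    ⟨0, fun _ => m0, by simp⟩⟩
  · rcases j with _ | j
    exacts [(hM _).2 ⟨1, by simp, x, hx, by simp⟩, by simpa using m0]
  · simpa [hw] using hasSum_single (f := fun j => w j • (Pi.single 0 x : ℕ → X) j) 0
      fun j hj => by simp [hj]
  · choose! m k1 k2 using fun i => show y i ∈ {x | ∃ m : ℕ → X, (∀ j, m j ∈ M) ∧
      HasSum (fun j => w j • m j) x} → ∃ m : ℕ → X, (∀ j, m j ∈ M) ∧
        HasSum (fun j => w j • m j) (y i) from id
    choose n n1 n2 using fun j => m3 ι U (fun i => m i j) (hy.mono fun i hi => k1 i hi j)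
    have s := Summable.of_norm_bounded (ws.mul_right R) (wb n n1)
    refine ⟨_, ⟨n, n1, s.hasSum⟩, fun f => ?_⟩
    rw [f.map_tsum s]
    refine (tendsto_tsum_of_dominated_convergence (f := fun i j => f (w j • m i j))
      ((ws.mul_right R).mul_left ‖f‖) (fun j => by simpa using (n2 j f).const_mul (w j))
      (hy.mono fun i hi j => (f.le_opNorm _).trans (mul_le_mul_of_nonneg_left (wb _ (k1 i hi) j)
        (norm_nonneg _)))).congr' (hy.mono fun i hi => (f.hasSum (k2 i hi)).tsum_eq)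
  · rintro x ⟨m, k1, k2⟩ y ⟨n, n1, n2⟩
    refine ⟨fun i => if i % 2 = 0 then (4⁻¹ * w (i / 2) / w i) • m (i / 2) else (-1 : ℝ) • n (i / 2),
      fun i => ?_, ?_⟩
    · beta_reduce
      split_ifs with l
      · refine m1 _ (k1 _) _ ?_
        obtain ⟨j, rfl⟩ : ∃ j, i = 2 * j := ⟨i / 2, by omega⟩
        have := w0 j
        rw [show 2 * j / 2 = j by omega, abs_of_pos (div_pos (by positivity) (w0 _)), div_le_one (w0 _),
          hw, hw, inv_mul_le_iff₀ (by norm_num), mul_one_div, div_le_div_iff₀ (by positivity)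
            (by positivity)]
        push_cast
        nlinarith [(j.cast_nonneg : (0 : ℝ) ≤ j)]
      · exact m1 _ (n1 _) _ (by simp)
    rw [smul_sub, sub_eq_add_neg, ← smul_neg]
    refine HasSum.even_add_odd ((k2.const_smul _).congr_fun fun j => ?_)
      ((n2.neg.const_smul _).congr_fun fun j => ?_)
    · beta_reduce
      rw [if_pos (by omega), show 2 * j / 2 = j by omega, smul_smul, smul_smul,
        mul_div_cancel₀ _ (w0 _).ne']
    · beta_reduce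
      rw [if_neg (by omega), show (2 * j + 1) / 2 = j by omega, smul_smul, ← neg_smul, smul_smul, hw, hw]
      congr 1
      push_cast
      field_simp
      ring
  · rintro x ⟨m, k1, k2⟩ t ht
    exact ⟨fun j => t • m j, fun j => m1 _ (k1 j) t ht, (k2.const_smul t).congr_fun fun j =>
      smul_comm _ _ _⟩
  · rintro x ⟨m, k1, k2⟩
    exact k2.norm_le_of_bounded (ws.mul_right R).hasSum (wb m k1)

lemma dsub {α β : Type} [PseudoMetricSpace β] (T : Set α) (Φ : α → β) (h : IsSeparable (Φ '' T)) :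
    ∃ D ⊆ T, D.Countable ∧ ∀ x ∈ T, ∀ δ > 0, ∃ d ∈ D, dist (Φ x) (Φ d) < δ := by
  obtain ⟨t, t1, t2, t3⟩ := h.exists_countable_dense_subset
  choose g g1 g2 using fun y : t => t1 y.2
  have := t2.to_subtype
  exact ⟨range g, range_subset_iff.2 g1, countable_range g, fun x hx δ hδ => by
    obtain ⟨y, hy, k⟩ := Metric.mem_closure_iff.1 (t3 ⟨x, hx, rfl⟩) δ hδ
    exact ⟨_, ⟨⟨y, hy⟩, rfl⟩, (g2 ⟨y, hy⟩).symm ▸ k⟩⟩

lemma hcard {β : Type} {k : Finset β → Set β} (hk : ∀ F, (k F).Countable) (S : Set β) :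
    Cardinal.mk (hull k S) ≤ max ℵ₀ (Cardinal.mk S) := by
  have a : hull k S ⊆ ⋃ l : List S, hull k {x | x ∈ l.map Subtype.val} := hmin
    (fun x hx => mem_iUnion.2 ⟨[⟨x, hx⟩], .base _ (by simp)⟩) fun F hF => by
      obtain ⟨l, hl⟩ : ∃ l : List S, ↑F ⊆ hull k {x | x ∈ l.map Subtype.val} := by
        classical
        induction F using Finset.induction_on with
        | empty => exact ⟨[], by simp⟩
        | insert a F _ ih =>
          rw [Finset.coe_insert, insert_subset_iff] at hF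
          obtain ⟨l, hl⟩ := ih hF.2
          obtain ⟨m, hm⟩ := mem_iUnion.1 hF.1
          refine ⟨m ++ l, ?_⟩
          rw [Finset.coe_insert, insert_subset_iff]
          exact ⟨hmono (fun x hx => by simp_all) hm, hl.trans (hmono fun x hx => by simp_all)⟩
      exact (hcl _ F hl).trans (subset_iUnion (fun l : List S => hull k {x | x ∈ l.map Subtype.val}) l)
  refine (mk_le_mk_of_subset a).trans ((mk_iUnion_le _).trans ?_)
  refine (mul_le_mul' (mk_list_le_max S) (ciSup_le' fun l => le_aleph0_iff_set_countable.2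
    (hcnt hk (List.finite_toSet _).countable))).trans ?_
  exact (mul_le_max_of_aleph0_le_left (le_max_left _ _)).trans (max_le le_rfl (le_max_left _ _))

structure Op (T : Set X) (k : Finset (X ⊕ (X →L[ℝ] ℝ)) → Set (X ⊕ (X →L[ℝ] ℝ))) : Prop where
  ct : ∀ F, (k F).Countable
  nm : ∀ F : Finset (X ⊕ (X →L[ℝ] ℝ)), ∀ a ∈ span ℝ (Sum.inl ⁻¹' (F : Set (X ⊕ (X →L[ℝ] ℝ)))), ∀ δ > 0,
    ∃ b, Sum.inr b ∈ k F ∧ ‖b‖ ≤ 1 ∧ ‖a‖ ≤ b a + δ
  ap : ∀ F, ∀ x ∈ T, ∀ δ > 0, ∃ d ∈ T, Sum.inl d ∈ k F ∧ ∀ b, Sum.inr b ∈ F → |b x - b d| < δ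

lemma exOp (T : Set X) : ∃ k, Op T k := by
  choose g g1 g2 using fun a : X => exists_dual_vector'' ℝ a
  choose D d1 d2 d3 using fun F : Finset (X ⊕ (X →L[ℝ] ℝ)) => dsub
    (span ℝ (Sum.inl ⁻¹' (F : Set (X ⊕ (X →L[ℝ] ℝ)))) : Set X) id (by
      simpa using (F.finite_toSet.preimage Sum.inl_injective.injOn).countable.isSeparable.span)
  choose E e1 e2 e3 using fun F : Finset (X ⊕ (X →L[ℝ] ℝ)) => dsub T
    (fun x (b : F) => (b.1.elim 0 id : X →L[ℝ] ℝ) x) (IsSeparable.of_separableSpace _)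
  refine ⟨fun F => Sum.inr '' (g '' D F) ∪ Sum.inl '' E F, fun F => (((d2 F).image _).image _).union
    ((e2 F).image _), fun F a ha δ hδ => ?_, fun F x hx δ hδ => ?_⟩
  · obtain ⟨d, h1, h2⟩ := d3 F a ha (δ / 2) (by positivity)
    refine ⟨g d, Or.inl ⟨_, ⟨d, h1, rfl⟩, rfl⟩, g1 d, ?_⟩
    have a1 := (g d).le_of_opNorm_le (g1 d) (a - d)
    have a2 := norm_sub_norm_le a d
    have a3 : g d d = ‖d‖ := g2 d
    rw [map_sub, Real.norm_eq_abs, abs_le] at a1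
    simp only [id, dist_eq_norm] at h2
    linarith
  · obtain ⟨d, h1, h2⟩ := e3 F x hx δ hδ
    exact ⟨d, e1 F h1, Or.inr ⟨d, h1, rfl⟩, fun b hb => (dist_le_pi_dist _ _ (⟨_, hb⟩ : F)).trans_lt h2⟩

def AA (U : Set (X ⊕ (X →L[ℝ] ℝ))) : Submodule ℝ X := (span ℝ (Sum.inl ⁻¹' U)).topologicalClosure

def BB (U : Set (X ⊕ (X →L[ℝ] ℝ))) : Submodule ℝ X := ⨅ b ∈ Sum.inr ⁻¹' U, (b : X →L[ℝ] ℝ).ker

variable {U : Set (X ⊕ (X →L[ℝ] ℝ))} {T L : Set X} {R : ℝ}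
  {k : Finset (X ⊕ (X →L[ℝ] ℝ)) → Set (X ⊕ (X →L[ℝ] ℝ))}

lemma mBB {x : X} : x ∈ BB U ↔ ∀ b, Sum.inr b ∈ U → b x = 0 := by simp [BB]

lemma AAc : IsClosed (AA U : Set X) := isClosed_closure

lemma BBc : IsClosed (BB U : Set X) := by
  rw [show (BB U : Set X) = ⋂ b ∈ Sum.inr ⁻¹' U, {x | (b : X →L[ℝ] ℝ) x = 0} by ext; simp [mBB]]
  exact isClosed_biInter fun b _ => isClosed_eq b.continuous continuous_const

lemma AAm {V : Set (X ⊕ (X →L[ℝ] ℝ))} (h : U ⊆ V) : AA U ≤ AA V :=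
  topologicalClosure_mono (span_mono (preimage_mono h))

lemma AAi {x : X} (h : Sum.inl x ∈ U) : x ∈ AA U := le_topologicalClosure _ (subset_span h)

lemma Op.nrm (H : Op T k) (hU : ∀ F : Finset _, ↑F ⊆ U → k F ⊆ U) {a z : X} (ha : a ∈ AA U)
    (hz : z ∈ BB U) : ‖a‖ ≤ ‖a + z‖ := by
  classical
  refine (isClosed_le (f := fun a : X => ‖a‖) (g := fun a => ‖a + z‖) continuous_norm
    (by fun_prop)).closure_subset_iff.2 (fun a ha => show ‖a‖ ≤ ‖a + z‖ from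
      le_of_forall_pos_le_add fun δ hδ => ?_) ha
  obtain ⟨F, f1, f2⟩ := mem_span_finite_of_mem_span ha
  obtain ⟨b, b1, b2, b3⟩ := H.nm (F.image Sum.inl) a (span_mono (fun x hx => by simpa using hx) f2) δ hδ
  have := b.le_of_opNorm_le b2 (a + z)
  rw [map_add, mBB.1 hz b (hU _ (by simpa using f1) b1), Real.norm_eq_abs, abs_le] at this
  linarith

lemma Op.ret (H : Op T k) (hL : WC L) {W : Submodule ℝ X} (hW : IsClosed (W : Set X))
    (h : ∀ F : Finset _, ↑F ⊆ U → ∀ d ∈ T, Sum.inl d ∈ k F → d ∈ L ∧ d ∈ W) {x : X} (hx : x ∈ T) :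
    ∃ y ∈ L, y ∈ W ∧ x - y ∈ BB U := by
  classical
  choose d d1 d2 d3 using fun p : Finset U × ℕ => H.ap (p.1.image Subtype.val) x hx (1 / (p.2 + 1))
    (by positivity)
  have e := fun p => h _ (by simp) _ (d1 p) (d2 p)
  obtain ⟨V, hV⟩ := exists_ultrafilter_le (atTop : Filter (Finset U × ℕ))
  obtain ⟨y, y1, y2⟩ := hL _ V d (Eventually.of_forall fun p => (e p).1)
  refine ⟨y, y1, wcl W.convex hW (Eventually.of_forall fun p => (e p).2) y2, mBB.2 fun b hb => ?_⟩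
  rw [map_sub, ← abs_nonpos_iff]
  refine le_of_tendsto_of_tendsto ((y2 b).const_sub _).abs ((tendsto_one_div_add_atTop_nhds_zero_nat.comp
    (tendsto_snd.mono_left prod_atTop_atTop_eq.ge)).mono_left hV) (hV ?_)
  filter_upwards [eventually_ge_atTop ({⟨_, hb⟩}, 0)] with p hp
  exact (d3 p b (Finset.mem_image.2 ⟨_, hp.1 (Finset.mem_singleton_self _), rfl⟩)).le

def Nl (Γ : Set X) : Prop := ∀ f : X →L[ℝ] ℝ, ∀ ε > 0, {γ ∈ Γ | ε ≤ |f γ|}.Finite

lemma Ab.sep (H : Ab L R) {T : Set X} (hT : IsSeparable T) (h : T ⊆ L) :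
    ∃ Γ ⊆ L, Γ ⊆ span ℝ T ∧ T ⊆ (span ℝ Γ).topologicalClosure ∧
      ∀ ε > 0, {γ ∈ Γ | ε ≤ ‖γ‖}.Finite := by
  obtain ⟨t, t1, t2, t3⟩ := hT.exists_countable_dense_subset
  rcases t.eq_empty_or_nonempty with rfl | ne
  · exact ⟨∅, by simp, by simp, t3.trans (by simp), by simp⟩
  obtain ⟨d, rfl⟩ := t2.exists_eq_range ne
  have dT := range_subset_iff.1 t1
  have p : ∀ j : ℕ, (0 : ℝ) < 1 / (j + 1) := fun j => by positivity
  refine ⟨range fun j : ℕ => (1 / (j + 1) : ℝ) • d j, range_subset_iff.2 fun j => H.sm _ (h (dT j)) _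
    (by rw [abs_of_pos (p j), div_le_one (by positivity)]; simp), range_subset_iff.2 fun j =>
      smul_mem _ _ (subset_span (dT j)), t3.trans (closure_mono (range_subset_iff.2 fun j => ?_)),
    fun ε hε => ?_⟩
  · exact (smul_mem_iff _ (p j).ne').1 (subset_span ⟨j, rfl⟩)
  obtain ⟨N, hN⟩ := eventually_atTop.1 (((tendsto_one_div_add_atTop_nhds_zero_nat (𝕜 := ℝ)).mul_const
    R).eventually (gt_mem_nhds (by simpa)) : ∀ᶠ j : ℕ in atTop, 1 / (j + 1 : ℝ) * R < ε)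
  refine ((finite_lt_nat N).image fun j : ℕ => (1 / (j + 1) : ℝ) • d j).subset ?_
  rintro _ ⟨⟨j, rfl⟩, l⟩
  refine ⟨j, not_le.1 fun i => (hN j i).not_ge (l.trans ?_), rfl⟩
  rw [norm_smul, Real.norm_of_nonneg (p j).le]
  exact mul_le_mul_of_nonneg_left (H.bd _ (h (dT j))) (p j).le

lemma nl_of {Γ : Set X} (h : ∀ ε > 0, {γ ∈ Γ | ε ≤ ‖γ‖}.Finite) : Nl Γ := fun f ε hε =>
  (h (ε / (‖f‖ + 1)) (by positivity)).subset fun γ ⟨a, b⟩ => ⟨a, by
    rw [div_le_iff₀ (by positivity)]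
    nlinarith [f.le_opNorm γ, Real.norm_eq_abs (f γ), norm_nonneg γ]⟩

lemma Ab.al (H : Ab L R) (κ : Cardinal) : ∀ S : Set X, Cardinal.mk S = κ → ∀ Y : Submodule ℝ X,
    IsClosed (Y : Set X) → Y ≤ (span ℝ S).topologicalClosure →
      ∃ Γ ⊆ L ∩ Y, Nl Γ ∧ L ∩ Y ⊆ (span ℝ Γ).topologicalClosure := by
  have base : ∀ S : Set X, S.Countable → ∀ Y : Submodule ℝ X, Y ≤ (span ℝ S).topologicalClosure →
      ∃ Γ ⊆ L ∩ Y, Nl Γ ∧ L ∩ Y ⊆ (span ℝ Γ).topologicalClosure := fun S hS Y h => by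
    obtain ⟨Γ, g1, g2, g3, g4⟩ := H.sep (hS.isSeparable.span.closure.mono
      (inter_subset_right.trans h)) (inter_subset_left (s := L) (t := (Y : Set X)))
    exact ⟨Γ, subset_inter g1 (g2.trans (span_le.2 inter_subset_right)), nl_of g4, g3⟩
  induction κ using WellFoundedLT.induction with
  | ind κ ih =>
  intro S hS Y hY h
  rcases le_or_gt κ ℵ₀ with c | c
  · exact base S (le_aleph0_iff_set_countable.1 (hS ▸ c)) Y h
  obtain ⟨e'⟩ := Cardinal.eq.1 ((mk_ord_toType κ).trans hS.symm)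
  obtain ⟨k, K⟩ := exOp (L ∩ Y)
  set e : κ.ord.ToType → X ⊕ (X →L[ℝ] ℝ) := fun i => Sum.inl (e' i) with he
  set V : Set κ.ord.ToType → Set (X ⊕ (X →L[ℝ] ℝ)) := fun J => hull k (e '' J) with hV
  choose Γ g1 g2 g3 using fun i => ih _ (show Cardinal.mk (Sum.inl ⁻¹' V (Iic i) : Set X) < κ from
    (mk_preimage_of_injective _ _ Sum.inl_injective).trans_lt ((hcard K.ct _).trans_lt (max_lt c
      (mk_image_le.trans_lt (by
        rw [← Iio_insert]
        exact mk_insert_le.trans_lt (add_lt_of_lt c.le (mk_Iio_toType_ord_lt i)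
          (one_lt_aleph0.trans c))))))) _ rfl (Y ⊓ (AA (V (Iic i)) ⊓ BB (V (Iio i))))
    (hY.inter (AAc.inter BBc)) (inf_le_right.trans inf_le_left)
  obtain ⟨Γ₀, a1, a2, a3⟩ := base _ ((hcnt K.ct countable_empty).preimage Sum.inl_injective)
    (Y ⊓ AA (hull k ∅)) inf_le_right
  set W := (span ℝ (Γ₀ ∪ ⋃ i, Γ i)).topologicalClosure with hW
  have rt : ∀ J : Set κ.ord.ToType, (∀ i ∈ J, Iic i ⊆ J ∧ L ∩ ↑(Y ⊓ AA (V (Iic i))) ⊆ W) →
      ∀ x ∈ L ∩ Y, ∃ y ∈ L, y ∈ W ⊓ (Y ⊓ AA (V J)) ∧ x - y ∈ BB (V J) := fun J hJ x hx =>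
    K.ret H.wc (isClosed_closure.inter (hY.inter AAc)) (fun F hF d d1 d2 => ⟨d1.1, by
      refine ⟨?_, d1.2, AAi (hcl _ F hF d2)⟩
      rcases hdir e J F hF with j | ⟨i, hi, j⟩
      · exact topologicalClosure_mono (span_mono subset_union_left)
          (a3 ⟨d1.1, d1.2, AAi (hcl _ F j d2)⟩)
      · exact (hJ i hi).2 ⟨d1.1, d1.2, AAi (hcl _ F j d2)⟩⟩) hx
  have I : ∀ i, L ∩ ↑(Y ⊓ AA (V (Iic i))) ⊆ W := fun i => by
    induction i using WellFoundedLT.induction with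
    | ind i ih =>
    rintro x ⟨x1, x2, x3⟩
    obtain ⟨y, y1, ⟨y2, y3, y4⟩, y5⟩ := rt (Iio i) (fun j hj => ⟨Iic_subset_Iio.2 hj, ih j hj⟩) x ⟨x1, x2⟩
    have : (4 : ℝ)⁻¹ • (x - y) ∈ W := topologicalClosure_mono (span_mono (subset_union_of_subset_right
      (subset_iUnion Γ i) _)) (g3 i ⟨H.sub x x1 y y1, smul_mem _ _ ⟨sub_mem x2 y3,
        sub_mem x3 (AAm (hmono (image_mono Iio_subset_Iic_self)) y4), y5⟩⟩)
    simpa using add_mem ((smul_mem_iff _ (by norm_num)).1 this) y2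
  have z0 : ∀ J, ∀ x ∈ AA (V J), x ∈ BB (V J) → x = 0 := fun J x a b => by
    simpa using K.nrm (hcl _) a (neg_mem b)
  refine ⟨Γ₀ ∪ ⋃ i, Γ i, union_subset (fun x hx => ⟨(a1 hx).1, (a1 hx).2.1⟩) (iUnion_subset
    fun i x hx => ⟨(g1 i hx).1, (g1 i hx).2.1⟩), fun f ε hε => ?_, fun x hx => ?_⟩
  swap
  · obtain ⟨y, -, ⟨y2, -, y4⟩, y5⟩ := rt univ (fun i _ => ⟨subset_univ _, I i⟩) x hx
    rwa [sub_eq_zero.1 (z0 _ _ (sub_mem (topologicalClosure_mono (span_mono (show S ⊆ Sum.inl ⁻¹' V univ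
      from fun s hs => .base _ ⟨e'.symm ⟨s, hs⟩, trivial, by simp [he]⟩)) (h hx.2)) y4) y5)]
  have fin : {i | ∃ γ ∈ Γ i, ε ≤ |f γ|}.Finite := by
    by_contra t
    set T := {i | ∃ γ ∈ Γ i, ε ≤ |f γ|} with hT
    set J := {i | (T ∩ Iic i).Finite} with hJ
    have lo : ∀ i ∈ J, Iic i ⊆ J := fun i hi j hj =>
      Finite.subset hi (inter_subset_inter_right _ (Iic_subset_Iic.2 hj))
    have inf : (T ∩ J).Infinite := fun l => by
      rcases Jᶜ.eq_empty_or_nonempty with m | m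
      · exact t (by rwa [compl_empty_iff.1 m, inter_univ] at l)
      · obtain ⟨i, i1, i2⟩ := wellFounded_lt.has_min _ m
        exact i1 ((l.insert i).subset fun j hj => (le_iff_eq_or_lt.1 hj.2).imp id fun n =>
          ⟨hj.1, not_not.1 fun o => i2 j o n⟩)
    have := inf.to_subtype
    choose γ c1 c2 using fun i : ↑(T ∩ J) => i.2.1
    obtain ⟨x, x1, x2⟩ := H.wc _ (hyperfilter _) γ (Eventually.of_forall fun i => (g1 _ (c1 i)).1)
    have := z0 J x (wcl (AA _).convex AAc (Eventually.of_forall fun i => AAm (hmono (image_mono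
      (lo _ i.2.2))) (g1 _ (c1 i)).2.2.1) x2) (mBB.2 fun b hb => tendsto_nhds_unique (x2 b)
        (tendsto_const_nhds.congr' ?_))
    · have := ge_of_tendsto' (x2 f).abs c2
      simp_all
      linarith
    rcases hdir e J {Sum.inr b} (by simpa) with j | ⟨i, hi, j⟩
    · exact Eventually.of_forall fun i => (mBB.1 (g1 _ (c1 i)).2.2.2 b (hmono (empty_subset _)
        (j (by simp)))).symm
    · filter_upwards [(hi.preimage Subtype.val_injective.injOn).compl_mem_hyperfilter] with l hl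
      exact (mBB.1 (g1 _ (c1 l)).2.2.2 b (hmono (image_mono (Iic_subset_Iio.2 (not_le.1 fun n =>
        hl ⟨l.2.1, n⟩))) (j (by simp)))).symm
  refine ((a2 f ε hε).union (fin.biUnion fun i _ => g2 i f ε hε)).subset ?_
  rintro γ ⟨l | l, m⟩
  · exact Or.inl ⟨l, m⟩
  · obtain ⟨i, hi⟩ := mem_iUnion.1 l
    exact Or.inr (mem_biUnion (show i ∈ {i | ∃ γ ∈ Γ i, ε ≤ |f γ|} from ⟨γ, hi, m⟩) ⟨hi, m⟩)

end Pool.Agent.H.MP_df74ac_an
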