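import Pool.Agent.H.MP_df74ac_an.A

namespace Pool.Agent.H.MP_df74ac_an

open Set Filter Topology Submodule

variable {X : Type} [NormedAddCommGroup X] [NormedSpace ℝ X]

def WS (D : Set (X →L[ℝ] ℝ)) : Prop := IsCompact (X := WeakDual ℝ X) D

def WO (D : Set (X →L[ℝ] ℝ)) : Prop := IsOpen (X := WeakDual ℝ X) D

def PT {ι : Type} (l : Filter ι) (g : ι → X →L[ℝ] ℝ) (z : X →L[ℝ] ℝ) : Prop :=
  ∀ x, Tendsto (fun i => g i x) l (𝓝 (z x))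

variable {C D U : Set (X →L[ℝ] ℝ)} {ι : Type} {l : Filter ι} {g : ι → X →L[ℝ] ℝ} {z : X →L[ℝ] ℝ}

lemma pt_iff : PT l g z ↔ Tendsto (β := WeakDual ℝ X) g l (@nhds (WeakDual ℝ X) _ z) :=
  (tendsto_iff_forall_eval_tendsto_topDualPairing (𝕜 := ℝ) (E := X)).symm

lemma WS.lim (h : WS D) (V : Ultrafilter ι) (hg : ∀ᶠ i in V, g i ∈ D) : ∃ z ∈ D, PT V g z := by
  obtain ⟨z, hz, k⟩ := IsCompact.ultrafilter_le_nhds' (X := WeakDual ℝ X) h (V.map g) hg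
  exact ⟨z, hz, pt_iff.2 k⟩

lemma ws_of (h : ∀ V : Ultrafilter (X →L[ℝ] ℝ), D ∈ V → ∃ z ∈ D, PT V id z) : WS D :=
  (isCompact_iff_ultrafilter_le_nhds' (X := WeakDual ℝ X)).2 fun V hV => by
    obtain ⟨z, hz, k⟩ := h V hV
    exact ⟨z, hz, pt_iff.1 k⟩

lemma WO.ev (h : WO U) (hz : z ∈ U) (k : PT l g z) : ∀ᶠ i in l, g i ∈ U :=
  pt_iff.1 k (IsOpen.mem_nhds (X := WeakDual ℝ X) h hz)

lemma WO.inter {V : Set (X →L[ℝ] ℝ)} (h : WO U) (k : WO V) : WO (U ∩ V) :=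
  IsOpen.inter (X := WeakDual ℝ X) h k

lemma wo_near (F : Finset X) (z : X →L[ℝ] ℝ) (r : ℝ) : WO {g | ∀ x ∈ F, |g x - z x| < r} := by
  have : {g : WeakDual ℝ X | ∀ x ∈ F, |g x - z x| < r} = ⋂ x ∈ F, {g | |g x - z x| < r} := by
    ext; simp
  exact show IsOpen {g : WeakDual ℝ X | ∀ x ∈ F, |g x - z x| < r} from this ▸ isOpen_biInter_finset
    fun x _ => isOpen_lt ((WeakDual.eval_continuous x).sub continuous_const).abs continuous_const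

lemma wo_gt (x : X) (r : ℝ) : WO {g | r < g x} :=
  isOpen_lt continuous_const (WeakDual.eval_continuous (𝕜 := ℝ) x)

lemma blim (V : Ultrafilter ι) {M : ℝ} (hg : ∀ᶠ i in V, ‖g i‖ ≤ M) : ∃ z, ‖z‖ ≤ M ∧ PT V g z := by
  obtain ⟨z, hz, k⟩ := WS.lim (D := Metric.closedBall 0 M) (WeakDual.isCompact_closedBall 0 M) V
    (g := g) (by simpa using hg)
  exact ⟨z, by simpa using hz, k⟩

lemma WS.mx (h : WS D) (ne : D.Nonempty) (x : X) : ∃ f ∈ D, ∀ g ∈ D, g x ≤ f x :=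
  IsCompact.exists_isMaxOn (β := WeakDual ℝ X) h ne (WeakDual.eval_continuous x).continuousOn

lemma WS.bdd [CompleteSpace X] (h : WS D) : ∃ M ≥ 0, ∀ f ∈ D, ‖f‖ ≤ M := by
  rcases D.eq_empty_or_nonempty with rfl | ne
  · exact ⟨0, le_rfl, by simp⟩
  obtain ⟨M, hM⟩ := banach_steinhaus (g := fun f : D => f.1) fun x => by
    obtain ⟨f, -, hf⟩ := h.mx ne x
    obtain ⟨g, -, hg⟩ := h.mx ne (-x)
    refine ⟨max (f x) (g (-x)), fun k => abs_le.2 ⟨?_, le_max_of_le_left (hf _ k.2)⟩⟩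
    have := hg _ k.2
    rw [map_neg] at this
    linarith [le_max_right (f x) (g (-x))]
  exact ⟨max M 0, le_max_right _ _, fun f hf => le_max_of_le_left (hM ⟨f, hf⟩)⟩

lemma netl {α : Type} {u : Finset α × ℕ → α → ℝ} {v : α → ℝ}
    (h : ∀ p, ∀ a ∈ p.1, |u p a - v a| < 1 / (p.2 + 1)) (a : α) :
    Tendsto (fun p => u p a) atTop (𝓝 (v a)) := by
  refine tendsto_iff_dist_tendsto_zero.2 (squeeze_zero' (Eventually.of_forall fun _ => dist_nonneg) ?_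
    ((tendsto_one_div_add_atTop_nhds_zero_nat (𝕜 := ℝ)).comp
      (tendsto_snd.mono_left prod_atTop_atTop_eq.ge)))
  filter_upwards [eventually_ge_atTop ({a}, 0)] with p hp
  exact (h p a (hp.1 (Finset.mem_singleton_self _))).le

lemma WO.basic (h : WO U) (hz : z ∈ U) :
    ∃ F : Finset X, ∃ r > 0, ∀ g : X →L[ℝ] ℝ, (∀ x ∈ F, |g x - z x| < r) → g ∈ U := by
  classical
  by_contra k
  push Not at k
  choose g g1 g2 using fun p : Finset X × ℕ => k p.1 (1 / (p.2 + 1)) (by positivity)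
  obtain ⟨p, hp⟩ := (h.ev hz (netl (u := fun p x => g p x) g1)).exists
  exact g2 p hp

lemma WO.seg (h : WO U) (hz : z ∈ U) (w : X →L[ℝ] ℝ) :
    ∃ s : ℝ, 0 < s ∧ s < 1 ∧ (1 - s) • z + s • w ∈ U := by
  have k : PT (𝓝[>] (0 : ℝ)) (fun s => (1 - s) • z + s • w) z := fun x => by
    have : Continuous fun s : ℝ => (1 - s) * z x + s * w x := by fun_prop
    simpa using (this.tendsto 0).mono_left nhdsWithin_le_nhds
  obtain ⟨s, h1, h2⟩ := ((h.ev hz k).and (Ioo_mem_nhdsGT one_pos)).exists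
  exact ⟨s, h2.1, h2.2, h1⟩

def Bad (C : Set (X →L[ℝ] ℝ)) (ε : ℝ) (c : X →L[ℝ] ℝ) : Prop :=
  ∀ U, WO U → c ∈ U → ∃ g ∈ C ∩ U, ∃ h ∈ C ∩ U, ε < ‖g - h‖

lemma bad (ne : D.Nonempty) (cv : Convex ℝ D) (cp : WS D)
    (h : ∀ z ∈ D, ∃ ε > 0, ∀ U, WO U → z ∈ U → ∃ y ∈ D ∩ U, ε ≤ ‖y - z‖) :
    ∃ C : Set (X →L[ℝ] ℝ), ∃ ε > 0, C.Nonempty ∧ Convex ℝ C ∧ WS C ∧ ∀ c ∈ C, Bad C ε c := by
  let E : Set (WeakDual ℝ X) := D
  have : CompactSpace E := isCompact_iff_compactSpace.1 cp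
  have : Nonempty E := ne.to_subtype
  obtain ⟨n, z, hz⟩ := nonempty_interior_of_iUnion_of_closed
    (f := fun n : ℕ => {z : E | Bad D (1 / (n + 1)) z.1}) (fun n => by
      refine ⟨isOpen_iff_forall_mem_open.2 fun z hz => ?_⟩
      obtain ⟨U, hU⟩ := not_forall.1 hz
      push Not at hU
      exact ⟨Subtype.val ⁻¹' U, fun w hw k => by
        obtain ⟨g, g1, h, h1, l⟩ := k U hU.1 hw
        exact l.not_ge (hU.2.2 g g1 h h1), IsOpen.preimage continuous_subtype_val hU.1, hU.2.1⟩)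
    (eq_univ_of_forall fun z => by
      obtain ⟨ε, e, k⟩ := h z.1 z.2
      obtain ⟨n, hn⟩ := exists_nat_one_div_lt e
      exact mem_iUnion.2 ⟨n, fun U hU hz => by
        obtain ⟨y, y1, y2⟩ := k U hU hz
        exact ⟨y, y1, z.1, ⟨z.2, hz⟩, hn.trans_le y2⟩⟩)
  obtain ⟨_, t1, ⟨V, hV, rfl⟩, t2⟩ := mem_interior.1 hz
  obtain ⟨z, zD⟩ := z
  change X →L[ℝ] ℝ at z
  obtain ⟨F, r, r0, hr⟩ := WO.basic (z := z) hV t2
  refine ⟨{g ∈ D | ∀ x ∈ F, |g x - z x| ≤ r / 2}, 1 / (n + 1), by positivity,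
    ⟨z, zD, fun x _ => by simp; linarith⟩, fun g g1 h h1 a b ha hb hab => ⟨cv g1.1 h1.1 ha hb hab,
      fun x hx => ?_⟩, ws_of fun W hW => ?_, fun c hc U hU cU => ?_⟩
  · have e1 := abs_le.1 (g1.2 x hx)
    have e2 := abs_le.1 (h1.2 x hx)
    obtain rfl : b = 1 - a := by linarith
    simp only [add_apply, smul_apply, smul_eq_mul]
    rw [abs_le]
    constructor <;> nlinarith
  · obtain ⟨w, w1, w2⟩ := cp.lim W (g := id) (mem_of_superset hW fun g hg => hg.1)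
    exact ⟨w, ⟨w1, fun x hx => le_of_tendsto ((w2 x).sub_const _).abs
      (mem_of_superset hW fun g hg => hg.2 x hx)⟩, w2⟩
  · obtain ⟨s, s0, s1, hs⟩ := hU.seg cU z
    have a : ∀ x ∈ F, |((1 - s) • c + s • z) x - z x| < r / 2 := fun x hx => by
      have e1 := abs_le.1 (hc.2 x hx)
      simp only [add_apply, smul_apply, smul_eq_mul]
      rw [abs_lt]
      constructor <;> nlinarith
    obtain ⟨g, g1, h, h1, l⟩ := @t1 ⟨(1 - s) • c + s • z, cv hc.1 zD (by linarith) s0.le (by ring)⟩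
      (hr _ fun x hx => (a x hx).trans (by linarith)) _ (hU.inter (wo_near F z (r / 2))) ⟨hs, a⟩
    exact ⟨g, ⟨⟨g1.1, fun x hx => (g1.2.2 x hx).le⟩, g1.2.1⟩, h,
      ⟨⟨h1.1, fun x hx => (h1.2.2 x hx).le⟩, h1.2.1⟩, l⟩

def II (Γ : Set X) : Type := {σ : ℕ → Finset X // ∀ n, ↑(σ n) ⊆ Γ ∧ (σ n).card ≤ n} × ℕ

noncomputable def cc (n : ℕ) : ℝ := (1 / 2) ^ n / (n + 1)

noncomputable def qq {Γ : Set X} (i : II Γ) (f : X →L[ℝ] ℝ) : ℝ :=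
  ∑ n ∈ Finset.range i.2, cc n * ∑ γ ∈ i.1.1 n, f γ ^ 2

noncomputable def QQ (Γ : Set X) (f : X →L[ℝ] ℝ) : ℝ := ⨆ i : II Γ, qq i f

variable {Γ : Set X} {R : ℝ}

instance : Nonempty (II Γ) := ⟨(⟨fun _ => ∅, by simp⟩, 0)⟩

lemma cc0 (n : ℕ) : 0 < cc n := by unfold cc; positivity

lemma qq_le (i : II Γ) {f g h : X →L[ℝ] ℝ} {a b η : ℝ} (e : 0 ≤ η)
    (k : ∀ γ ∈ Γ, f γ ^ 2 ≤ a * g γ ^ 2 + b * h γ ^ 2 + η) :
    qq i f ≤ a * qq i g + b * qq i h + 2 * η := by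
  have : ∑ n ∈ Finset.range i.2, (1 / 2 : ℝ) ^ n * η ≤ 2 * η := by
    rw [← Finset.sum_mul]
    exact mul_le_mul_of_nonneg_right (sum_geometric_two_le _) e
  refine le_trans ?_ (add_le_add_right this _)
  unfold qq
  rw [Finset.mul_sum, Finset.mul_sum, ← Finset.sum_add_distrib, ← Finset.sum_add_distrib]
  refine Finset.sum_le_sum fun n _ => ?_
  have a1 := Finset.sum_le_sum fun γ (hγ : γ ∈ i.1.1 n) => k γ ((i.1.2 n).1 hγ)
  rw [Finset.sum_add_distrib, Finset.sum_add_distrib, ← Finset.mul_sum, ← Finset.mul_sum,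
    Finset.sum_const, nsmul_eq_mul] at a1
  have a2 : cc n * (i.1.1 n).card ≤ (1 / 2) ^ n := by
    have : ((i.1.1 n).card : ℝ) ≤ n := by exact_mod_cast (i.1.2 n).2
    unfold cc
    rw [div_mul_eq_mul_div, div_le_iff₀ (by positivity)]
    exact mul_le_mul_of_nonneg_left (by linarith) (by positivity)
  nlinarith [mul_le_mul_of_nonneg_left a1 (cc0 n).le, mul_le_mul_of_nonneg_right a2 e]

lemma qq_bd (hR : ∀ γ ∈ Γ, ‖γ‖ ≤ R) (i : II Γ) (f : X →L[ℝ] ℝ) : qq i f ≤ 2 * (‖f‖ * R) ^ 2 := by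
  simpa using qq_le i (f := f) (g := 0) (h := 0) (a := 0) (b := 0) (sq_nonneg (‖f‖ * R)) fun γ hγ => by
    have := (f.le_opNorm γ).trans (mul_le_mul_of_nonneg_left (hR γ hγ) (norm_nonneg f))
    simpa using sq_le_sq' (abs_le.1 this).1 (abs_le.1 this).2

lemma le_QQ (hR : ∀ γ ∈ Γ, ‖γ‖ ≤ R) (i : II Γ) (f : X →L[ℝ] ℝ) : qq i f ≤ QQ Γ f :=
  le_ciSup (f := fun i => qq i f) ⟨_, forall_mem_range.2 fun i => qq_bd hR i f⟩ i

lemma QQ_le (hR : ∀ γ ∈ Γ, ‖γ‖ ≤ R) {f g h : X →L[ℝ] ℝ} {a b η : ℝ} (e : 0 ≤ η) (ha : 0 ≤ a)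
    (hb : 0 ≤ b) (k : ∀ γ ∈ Γ, f γ ^ 2 ≤ a * g γ ^ 2 + b * h γ ^ 2 + η) :
    QQ Γ f ≤ a * QQ Γ g + b * QQ Γ h + 2 * η := ciSup_le fun i => (qq_le i e k).trans (by
  gcongr <;> exact le_QQ hR i _)

lemma QQ0 (hR : ∀ γ ∈ Γ, ‖γ‖ ≤ R) (f : X →L[ℝ] ℝ) : 0 ≤ QQ Γ f :=
  le_trans (by simp [qq]) (le_QQ hR (⟨fun _ => ∅, by simp⟩, 0) f)

lemma QQ_lsc (hR : ∀ γ ∈ Γ, ‖γ‖ ≤ R) [l.NeBot] (k : PT l g z) {r : ι → ℝ} {s : ℝ}
    (hr : Tendsto r l (𝓝 s)) (h : ∀ᶠ i in l, QQ Γ (g i) ≤ r i) : QQ Γ z ≤ s := ciSup_le fun j =>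
  le_of_tendsto_of_tendsto (tendsto_finsetSum _ fun n _ => (tendsto_finsetSum _ fun γ _ =>
    (k γ).pow 2).const_mul _) hr (h.mono fun i hi => (le_QQ hR j _).trans hi)

lemma QQ_st (hR : ∀ γ ∈ Γ, ‖γ‖ ≤ R) (hΓ : Nl Γ) {f g : X →L[ℝ] ℝ} {γ : X} (hγ : γ ∈ Γ)
    (h : f γ ≠ g γ) : QQ Γ (f + g) < 2 * QQ Γ f + 2 * QQ Γ g := by
  classical
  obtain ⟨a, ha⟩ : ∃ a, a = |f γ - g γ| / 2 := ⟨_, rfl⟩
  have a0 : 0 < a := ha ▸ half_pos (abs_pos.2 (sub_ne_zero.2 h))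
  have a1 : (f γ - g γ) ^ 2 = 4 * a ^ 2 := by rw [ha, div_pow, sq_abs]; ring
  obtain ⟨F, hF⟩ : ∃ F : Finset X, ∀ x, x ∈ F ↔ x ∈ Γ ∧ a ≤ |(f + g) x| :=
    ⟨(hΓ (f + g) a a0).toFinset, by simp⟩
  have key : ∀ G : Finset X, ↑G ⊆ Γ → G.card ≤ F.card + 1 → ∑ x ∈ G, (f + g) x ^ 2 + 3 * a ^ 2 ≤
      2 * ∑ x ∈ insert γ F, f x ^ 2 + 2 * ∑ x ∈ insert γ F, g x ^ 2 := fun G g1 g2 => by
    have b1 : ∑ x ∈ G, ((f + g) x ^ 2 - a ^ 2) ≤ ∑ x ∈ F, ((f + g) x ^ 2 - a ^ 2) := by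
      rw [← Finset.sum_inter_add_sum_sdiff G F]
      refine le_trans (add_le_of_nonpos_right (Finset.sum_nonpos fun x hx => ?_))
        (Finset.sum_le_sum_of_subset_of_nonneg Finset.inter_subset_right fun x hx _ => ?_)
      · rw [Finset.mem_sdiff, hF, not_and, not_le] at hx
        nlinarith [hx.2 (g1 hx.1), abs_nonneg ((f + g) x), sq_abs ((f + g) x)]
      · nlinarith [((hF x).1 hx).2, sq_abs ((f + g) x)]
    have b2 : ∑ x ∈ F, (f + g) x ^ 2 ≤ ∑ x ∈ insert γ F, (f + g) x ^ 2 :=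
      Finset.sum_le_sum_of_subset_of_nonneg (Finset.subset_insert _ _) fun _ _ _ => sq_nonneg _
    have b3 : (f γ - g γ) ^ 2 ≤ ∑ x ∈ insert γ F, (f x - g x) ^ 2 :=
      Finset.single_le_sum (f := fun x => (f x - g x) ^ 2) (fun _ _ => sq_nonneg _)
        (Finset.mem_insert_self _ _)
    have b4 : ∑ x ∈ insert γ F, (f + g) x ^ 2 + ∑ x ∈ insert γ F, (f x - g x) ^ 2 =
        2 * ∑ x ∈ insert γ F, f x ^ 2 + 2 * ∑ x ∈ insert γ F, g x ^ 2 := by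
      rw [Finset.mul_sum, Finset.mul_sum, ← Finset.sum_add_distrib, ← Finset.sum_add_distrib]
      exact Finset.sum_congr rfl fun x _ => by rw [add_apply]; ring
    have b5 : (G.card : ℝ) ≤ F.card + 1 := by exact_mod_cast g2
    rw [Finset.sum_sub_distrib, Finset.sum_sub_distrib, Finset.sum_const, Finset.sum_const,
      nsmul_eq_mul, nsmul_eq_mul] at b1
    nlinarith [mul_le_mul_of_nonneg_right b5 (sq_nonneg a)]
  refine lt_of_le_of_lt (ciSup_le fun i => ?_) (sub_lt_self _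
    (show 0 < cc (F.card + 1) * (3 * a ^ 2) from mul_pos (cc0 _) (by positivity)))
  let j : II Γ := (⟨fun n => if n = F.card + 1 then insert γ F else i.1.1 n, fun n => by
    beta_reduce
    split_ifs with e
    · exact ⟨by
        rw [Finset.coe_insert]
        exact insert_subset hγ fun x hx => ((hF x).1 hx).1, e ▸ Finset.card_insert_le _ _⟩
    · exact i.1.2 n⟩, max i.2 (F.card + 2))
  have c1 : qq i (f + g) ≤ ∑ n ∈ Finset.range j.2, cc n * ∑ x ∈ i.1.1 n, (f + g) x ^ 2 :=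
    Finset.sum_le_sum_of_subset_of_nonneg (Finset.range_mono (le_max_left _ _)) fun n _ _ =>
      mul_nonneg (cc0 n).le (Finset.sum_nonneg fun _ _ => sq_nonneg _)
  have c2 : ∑ n ∈ Finset.range j.2, (if n = F.card + 1 then cc n * (3 * a ^ 2) else 0) =
      cc (F.card + 1) * (3 * a ^ 2) := by
    rw [Finset.sum_ite_eq', if_pos (Finset.mem_range.2 (lt_max_of_lt_right (by omega)))]
  have c3 : ∑ n ∈ Finset.range j.2, cc n * ∑ x ∈ i.1.1 n, (f + g) x ^ 2 +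
      ∑ n ∈ Finset.range j.2, (if n = F.card + 1 then cc n * (3 * a ^ 2) else 0) ≤
        2 * qq j f + 2 * qq j g := by
    unfold qq
    rw [Finset.mul_sum, Finset.mul_sum, ← Finset.sum_add_distrib, ← Finset.sum_add_distrib]
    refine Finset.sum_le_sum fun n _ => ?_
    simp only [j]
    split_ifs with e
    · nlinarith [mul_le_mul_of_nonneg_left (key _ (i.1.2 n).1 (e ▸ (i.1.2 n).2)) (cc0 n).le]
    · have : ∑ x ∈ i.1.1 n, (f + g) x ^ 2 ≤ 2 * ∑ x ∈ i.1.1 n, f x ^ 2 + 2 * ∑ x ∈ i.1.1 n, g x ^ 2 := by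
        rw [Finset.mul_sum, Finset.mul_sum, ← Finset.sum_add_distrib]
        exact Finset.sum_le_sum fun x _ => by
          rw [add_apply]; nlinarith [sq_nonneg (f x - g x)]
      nlinarith [mul_le_mul_of_nonneg_left this (cc0 n).le]
  linarith [le_QQ hR j f, le_QQ hR j g]

end Pool.Agent.H.MP_df74ac_an
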