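import Pool.Agent.H.MP_df74ac_an.B

namespace Pool.Agent.H.MP_df74ac_an

open Set Filter Topology Submodule Pool.Agent.H.MP_5e5cb0

variable {X : Type} [NormedAddCommGroup X] [NormedSpace ℝ X]
  {C D U : Set (X →L[ℝ] ℝ)} {ε : ℝ} {N : X → ℝ}

lemma tcl {ι : Type} {l : Filter ι} {g : ι → X →L[ℝ] ℝ} {z : X →L[ℝ] ℝ} {M : ℝ} {S : Set X}
    (hM : ∀ i, ‖g i‖ ≤ M) (h : ∀ y ∈ S, Tendsto (fun i => g i y) l (𝓝 (z y))) :
    ∀ y ∈ (span ℝ S).topologicalClosure, Tendsto (fun i => g i y) l (𝓝 (z y)) := fun y hy =>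
  ((LipschitzWith.uniformEquicontinuous (fun i => g i) M.toNNReal fun i =>
    ContinuousLinearMap.lipschitzWith_of_opNorm_le ((hM i).trans
      (Real.le_coe_toNNReal M))).equicontinuous.isClosed_setOfPred_tendsto
        z.continuous).closure_subset_iff.2 (fun y hy => by
    induction hy using span_induction with
    | mem y hy => exact h y hy
    | zero => simpa using tendsto_const_nhds
    | add a b _ _ ha hb => simpa using ha.add hb
    | smul a b _ hb => simpa using hb.const_mul a) hy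

lemma vcl {f : X →L[ℝ] ℝ} {S : Set X} (h : ∀ y ∈ S, f y = 0) {y : X}
    (hy : y ∈ (span ℝ S).topologicalClosure) : f y = 0 :=
  topologicalClosure_minimal _ (span_le.2 h : span ℝ S ≤ f.ker) f.isClosed_ker hy

lemma exv {f : X →L[ℝ] ℝ} (h : ε < ‖f‖) : ∃ v, ‖v‖ ≤ 1 ∧ ε < f v := by
  obtain ⟨v, h1, h2⟩ := f.exists_lt_apply_of_lt_opNorm h
  rcases lt_abs.1 h2 with k | k
  exacts [⟨v, h1.le, k⟩, ⟨-v, by simpa using h1.le, by simpa using k⟩]

def Good (C : Set (X →L[ℝ] ℝ)) (Γ : Set X) (ε : ℝ) : Prop := ∀ c ∈ C, ∀ y, ∀ η > 0,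
  ∃ g ∈ C, ∃ h ∈ C, ε < ‖g - h‖ ∧ ∀ γ ∈ insert y Γ, |g γ - c γ| ≤ η ∧ |h γ - c γ| ≤ η

lemma sepred [CompleteSpace X] {K : Set X} (hK : WC K) (ne : K.Nonempty)
    (dn : Dense (span ℝ K : Set X)) (cp : WS C) (hC : ∀ c ∈ C, Bad C ε c) :
    ∃ (P : X →L[ℝ] X) (Γ : Set X) (R : ℝ), (∀ γ ∈ Γ, ‖γ‖ ≤ R) ∧ Nl Γ ∧
      (∀ f : X →L[ℝ] ℝ, (∀ γ ∈ Γ, f γ = 0) → f = 0) ∧ Good ((· ∘L P) '' C) Γ ε := by
  classical
  obtain ⟨L, R, KL, H⟩ := exL hK ne
  obtain ⟨M, M0, hM⟩ := cp.bdd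
  obtain ⟨k, hk⟩ := exOp L
  obtain ⟨π, hπ⟩ : ∃ π : X ⊕ (X →L[ℝ] ℝ) → X, ∀ x, π (Sum.inl x) = x :=
    ⟨fun b => b.elim id 0, fun _ => rfl⟩
  choose E e1 e2 e3 using fun F : Finset (X ⊕ (X →L[ℝ] ℝ)) => dsub C
    (fun c (b : F) => c (π b)) (TopologicalSpace.IsSeparable.of_separableSpace _)
  choose! g g1 h h1 k1 using fun (F : Finset (X ⊕ (X →L[ℝ] ℝ))) (n : ℕ) d (hd : d ∈ C) =>
    hC d hd _ (wo_near (F.image π) d (1 / (n + 1))) fun x _ => by simp; positivity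
  choose! w w1 w2 using fun F n d (hd : d ∈ C) => exv (k1 F n d hd)
  set U := hull (fun F => k F ∪ Sum.inl '' ⋃ n, w F n '' E F) ∅ with hU
  have uc : U.Countable := hcnt (fun F => (hk.ct F).union ((countable_iUnion fun n =>
    (e2 F).image _).image _)) countable_empty
  have nr : ∀ a ∈ AA U, ∀ z ∈ BB U, ‖a‖ ≤ ‖a + z‖ := fun a ha z hz =>
    hk.nrm (fun F hF => subset_union_left.trans (hcl _ F hF)) ha hz
  have rt : ∀ x ∈ L, ∃ y ∈ L, y ∈ AA U ∧ x - y ∈ BB U := fun x hx =>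
    hk.ret H.wc AAc (fun F hF d d1 d2 => ⟨d1, AAi (hcl _ F hF (Or.inl d2))⟩) hx
  have cl : IsClosed ((AA U ⊔ BB U : Submodule ℝ X) : Set X) := by
    have := (AAc (U := U)).completeSpace_coe
    have := (BBc (U := U)).completeSpace_coe
    have a := (((AA U).subtypeL.coprod (BB U).subtypeL).antilipschitz_of_bound (K := 2)
      fun p => ?_).isClosed_range (ContinuousLinearMap.uniformContinuous _)
    · convert a using 1
      ext x
      simpa using Submodule.mem_sup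
    have b1 := nr _ p.1.2 _ p.2.2
    have b2 := norm_sub_le (p.1 + p.2 : X) p.1
    rw [add_sub_cancel_left] at b2
    simp only [Prod.norm_def, NNReal.coe_ofNat, ContinuousLinearMap.coprod_apply, subtypeL_apply,
      max_le_iff, coe_norm]
    constructor <;> linarith [norm_nonneg (p.1 + p.2 : X)]
  have tc : IsTopCompl (AA U) (BB U) := IsCompl.isTopCompl_of_isClosed ⟨disjoint_def.2 fun x a b => by
    simpa using nr x a _ (neg_mem b), codisjoint_iff.2 (eq_top_iff'.2 fun x =>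
      cl.closure_subset_iff.2 (span_le.2 fun x hx => by
        obtain ⟨y, -, y1, y2⟩ := rt x (KL hx)
        exact mem_sup.2 ⟨y, y1, _, y2, by simp⟩) (dn x))⟩ AAc BBc
  obtain ⟨Γ₀, a1, a2, a3, a4⟩ := H.sep (T := L ∩ AA U)
    ((uc.preimage Sum.inl_injective).isSeparable.span.closure.mono inter_subset_right) inter_subset_left
  replace a2 : Γ₀ ⊆ AA U := a2.trans (span_le.2 inter_subset_right)
  obtain ⟨Γ₁, b1, b2, b3⟩ := H.al _ univ rfl (BB U) BBc (le_top.trans (span_univ.ge.trans (le_topologicalClosure _)))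
  have pa : ∀ x ∈ AA U, projectionL _ _ tc x = x := fun x hx => projectionL_apply_left tc ⟨x, hx⟩
  refine ⟨projectionL _ _ tc, Γ₀ ∪ Γ₁, R, fun γ hγ => H.bd _ (hγ.elim (a1 ·) fun j => (b1 j).1),
    fun f δ hδ => ((nl_of a4 f δ hδ).union (b2 f δ hδ)).subset fun γ hγ =>
      hγ.1.imp (⟨·, hγ.2⟩) (⟨·, hγ.2⟩), fun f hf => ContinuousLinearMap.ext fun x =>
        vcl (fun x hx => ?_) (dn x), ?_⟩
  · obtain ⟨y, y0, y1, y2⟩ := rt x (KL hx)
    have c1 := vcl (fun γ j => hf γ (Or.inl j)) (a3 ⟨y0, y1⟩)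
    have c2 := vcl (fun γ j => hf γ (Or.inr j)) (b3 ⟨H.sub x (KL hx) y y0, smul_mem _ _ y2⟩)
    simpa [c1] using c2
  rintro _ ⟨c, hc, rfl⟩ y η η0
  choose d d1 d2 using fun p : Finset U × ℕ => e3 (p.1.image Subtype.val) c hc
    (1 / ((2 * p.2 + 1 : ℕ) + 1)) (by positivity)
  have tn : ∀ u : Finset U × ℕ → X →L[ℝ] ℝ, (∀ p, u p ∈ C ∩ {g | ∀ x ∈ (p.1.image Subtype.val).image π,
      |g x - d p x| < 1 / ((2 * p.2 + 1 : ℕ) + 1)}) → ∀ᶠ p in atTop, ∀ γ ∈ insert y (Γ₀ ∪ Γ₁),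
        |u p (projectionL _ _ tc γ) - c (projectionL _ _ tc γ)| ≤ η := fun u hu => by
    have t1 := netl (u := fun p (a : U) => u p (π a)) (v := fun a => c (π a)) fun p a ha => by
      have m := Finset.mem_image_of_mem Subtype.val ha
      have i1 := abs_lt.1 ((hu p).2 _ (Finset.mem_image_of_mem π m))
      have i2 := abs_lt.1 ((dist_le_pi_dist _ _ (⟨_, m⟩ : p.1.image Subtype.val)).trans_lt (d2 p))
      have : (1 : ℝ) / (p.2 + 1) = 2 * (1 / ((2 * p.2 + 1 : ℕ) + 1)) := by push_cast; field_simp; ring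
      rw [abs_lt, this]
      constructor <;> linarith
    have t2 : ∀ x ∈ AA U, ∀ᶠ p in atTop, |u p x - c x| ≤ η := fun x hx =>
      (Metric.tendsto_nhds.1 (tcl (fun p => hM _ (hu p).1) (fun y hy => by
        simpa [hπ] using t1 ⟨_, hy⟩) x hx) η η0).mono fun p => le_of_lt
    filter_upwards [t2 _ (projectionL_apply_mem tc y), (a4 (η / (2 * M + 1))
      (by positivity)).eventually_all.2 fun γ j => t2 γ (a2 j.1)] with p p1 p2
    rintro γ (rfl | j | j)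
    · exact p1
    · rw [pa γ (a2 j)]
      refine (le_or_gt (η / (2 * M + 1)) ‖γ‖).elim (fun i => p2 γ ⟨j, i⟩) fun i => ?_
      have := (u p - c).le_of_opNorm_le ((norm_sub_le _ _).trans (add_le_add (hM _ (hu p).1)
        (hM c hc))) γ
      rw [lt_div_iff₀ (by positivity)] at i
      exact le_trans this (by nlinarith [norm_nonneg γ])
    · simp [projectionL_apply_eq_zero_of_mem_right tc (b1 j).2, η0.le]
  have dC := fun p => e1 _ (d1 p)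
  obtain ⟨p, p1, p2⟩ := ((tn _ fun p => g1 _ _ _ (dC p)).and (tn _ fun p => h1 _ _ _ (dC p))).exists
  refine ⟨_, ⟨_, (g1 _ _ _ (dC p)).1, rfl⟩, _, ⟨_, (h1 _ _ _ (dC p)).1, rfl⟩,
    (w2 (p.1.image Subtype.val) (2 * p.2 + 1) _ (dC p)).trans_le (le_trans ?_
      (ContinuousLinearMap.unit_le_opNorm _ _ (w1 (p.1.image Subtype.val) (2 * p.2 + 1) _ (dC p)))),
        fun γ j => ⟨p1 γ j, p2 γ j⟩⟩
  simp only [sub_apply, ContinuousLinearMap.comp_apply]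
  rw [pa _ (AAi (hcl _ (p.1.image Subtype.val) (by simp; exact fun x _ => x.2)
    (Or.inr ⟨_, mem_iUnion.2 ⟨_, _, d1 p, rfl⟩, rfl⟩)))]
  exact le_abs_self _

structure Sup (D : Set (X →L[ℝ] ℝ)) (N : X → ℝ) : Prop where
  ex : ∀ x, ∃ f ∈ D, f x = N x
  le : ∀ g ∈ D, ∀ x, g x ≤ N x

lemma Sup.slice (H : Sup D N) (cp : WS D) {x : X} {f : X →L[ℝ] ℝ}
    (un : ∀ g ∈ D, g x = N x → g = f) (hU : WO U) (hf : f ∈ U) :
    ∃ τ > 0, ∀ g ∈ D, N x - τ < g x → g ∈ U := by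
  by_contra k
  push Not at k
  choose g g1 g2 g3 using fun n : ℕ => k (1 / (n + 1)) (by positivity)
  obtain ⟨z, z1, z2⟩ := cp.lim (hyperfilter ℕ) (Eventually.of_forall g1)
  obtain rfl := un z z1 ((H.le z z1 x).antisymm (by
    simpa using le_of_tendsto_of_tendsto' (((tendsto_one_div_add_atTop_nhds_zero_nat
      (𝕜 := ℝ)).mono_left Nat.hyperfilter_le_atTop).const_sub (N x)) (z2 x) fun n => (g2 n).le))
  obtain ⟨n, hn⟩ := (hU.ev hf z2).exists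
  exact g3 n hn

lemma Sup.gat [CompleteSpace X] (H : Sup D N) (cp : WS D) {x : X} {f : X →L[ℝ] ℝ} (hf : f ∈ D)
    (fx : f x = N x) (un : ∀ g ∈ D, g x = N x → g = f) (v : X) :
    HasDerivAt (fun t : ℝ => N (x + t • v)) (f v) 0 := by
  obtain ⟨M, M0, hM⟩ := cp.bdd
  refine hasDerivAt_iff_isLittleO_nhds_zero.2 (Asymptotics.isLittleO_iff.2 fun δ hδ => ?_)
  obtain ⟨τ, τ0, hτ⟩ := H.slice cp un (wo_near {v} f δ) fun _ _ => by simpa
  have : Tendsto (fun t : ℝ => |t| * ((M + M) * ‖v‖)) (𝓝 0) (𝓝 0) := by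
    simpa using (continuous_abs.tendsto (0 : ℝ)).mul_const ((M + M) * ‖v‖)
  filter_upwards [this.eventually (gt_mem_nhds τ0)] with t ht
  obtain ⟨g, g1, g2⟩ := H.ex (x + t • v)
  have a1 := H.le f hf (x + t • v)
  have a2 := H.le g g1 x
  have a3 : |g v - f v| ≤ (M + M) * ‖v‖ := (g - f).le_of_opNorm_le ((norm_sub_le _ _).trans
    (add_le_add (hM _ g1) (hM _ hf))) v
  have a4 : |t * g v - t * f v| = |t| * |g v - f v| := by rw [← abs_mul, mul_sub]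
  have a5 := le_abs_self (t * g v - t * f v)
  rw [map_add, map_smul, smul_eq_mul] at a1 g2
  have a6 := hτ g g1 (by nlinarith [abs_nonneg t]) v (Finset.mem_singleton_self _)
  simp only [zero_add, zero_smul, add_zero, smul_eq_mul, Real.norm_eq_abs]
  rw [abs_of_nonneg (by linarith)]
  nlinarith [abs_nonneg t]

def In (C : Set (X →L[ℝ] ℝ)) (s : ℝ) (f : X →L[ℝ] ℝ) : Prop :=
  ∃ c ∈ C, ∃ d ∈ C, ∃ b ∈ Metric.closedBall (0 : X →L[ℝ] ℝ) 1, f = s • c - s • d + s • b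

lemma build [CompleteSpace X] {Γ : Set X} {R : ℝ} (ne : C.Nonempty) (cv : Convex ℝ C) (cp : WS C)
    (e0 : 0 < ε) (hR : ∀ γ ∈ Γ, ‖γ‖ ≤ R) (hΓ : Nl Γ)
    (sp : ∀ f : X →L[ℝ] ℝ, (∀ γ ∈ Γ, f γ = 0) → f = 0) (gd : Good C Γ ε) :
    ∃ N : X → ℝ, (∀ x y : X, N (x + y) ≤ N x + N y) ∧ (∀ (r : ℝ) (x : X), N (r • x) = |r| * N x) ∧
      (∃ c₁ c₂ : ℝ, 0 < c₁ ∧ 0 < c₂ ∧ ∀ x : X, c₁ * ‖x‖ ≤ N x ∧ N x ≤ c₂ * ‖x‖) ∧
      (∀ x : X, x ≠ 0 → ∃ L : X →L[ℝ] ℝ, ∀ v : X, HasDerivAt (fun t : ℝ => N (x + t • v)) (L v) 0) ∧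
      ∀ x : X, x ≠ 0 → ¬ DifferentiableAt ℝ N x := by
  obtain ⟨D, hD⟩ : ∃ D : Set (X →L[ℝ] ℝ), ∀ f, f ∈ D ↔ ∃ s, 0 ≤ s ∧ In C s f ∧ s ^ 2 + QQ Γ f ≤ 1 :=
    ⟨_, fun _ => Iff.rfl⟩
  have s1 : ∀ s f, 0 ≤ s → s ^ 2 + QQ Γ f ≤ 1 → s ≤ 1 := fun s f a b => by nlinarith [QQ0 hR f]
  have sc : ∀ s f t, 0 ≤ s → In C s f → 0 ≤ t → t ^ 2 * (s ^ 2 + QQ Γ f) ≤ 1 → t • f ∈ D := by
    rintro s f t a ⟨c, c1, d, d1, b, b1, e⟩ ht k
    have := QQ_le hR (f := t • f) (g := f) (h := 0) le_rfl (sq_nonneg t) le_rfl fun γ _ => by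
      simp [mul_pow]
    exact (hD _).2 ⟨t * s, by positivity, ⟨c, c1, d, d1, b, b1, by
      simp only [e, smul_add, smul_sub, smul_smul]⟩, by nlinarith⟩
  have ng : ∀ f ∈ D, -f ∈ D := fun f hf => by
    obtain ⟨s, a, ⟨c, c1, d, d1, b, b1, e⟩, k⟩ := (hD f).1 hf
    have := QQ_le hR (f := -f) (g := f) (h := 0) le_rfl zero_le_one le_rfl fun γ _ => by simp
    exact (hD _).2 ⟨s, a, ⟨d, d1, c, c1, -b, by simpa using b1, by rw [e, smul_neg]; abel⟩, by linarith⟩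
  have dp : WS D := ws_of fun V hV => by
    choose! s a c c1 d d1 b b1 e k using fun f (hf : f ∈ D) => show ∃ s, 0 ≤ s ∧ ∃ c ∈ C, ∃ d ∈ C,
      ∃ b ∈ Metric.closedBall (0 : X →L[ℝ] ℝ) 1, f = s • c - s • d + s • b ∧ s ^ 2 + QQ Γ f ≤ 1 from by
        obtain ⟨s, a, ⟨c, c1, d, d1, b, b1, e⟩, k⟩ := (hD f).1 hf
        exact ⟨s, a, c, c1, d, d1, b, b1, e, k⟩
    have hV : ∀ᶠ f in V, f ∈ D := hV
    obtain ⟨s', -, s2⟩ := rlim V (a := s) (hV.mono fun f hf => (abs_of_nonneg (a f hf)).trans_le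
      (s1 _ _ (a f hf) (k f hf)))
    obtain ⟨c', c2, c3⟩ := cp.lim V (hV.mono c1)
    obtain ⟨d', d2, d3⟩ := cp.lim V (hV.mono d1)
    obtain ⟨b', b2, b3⟩ := blim V (g := b) (hV.mono fun f hf => mem_closedBall_zero_iff.1 (b1 f hf))
    have t : PT V id (s' • c' - s' • d' + s' • b') := fun x =>
      (((s2.mul (c3 x)).sub (s2.mul (d3 x))).add (s2.mul (b3 x))).congr' (hV.mono fun f hf =>
        (DFunLike.congr_fun (e f hf) x).symm)
    refine ⟨_, (hD _).2 ⟨s', ge_of_tendsto s2 (hV.mono a), ⟨c', c2, d', d2, b',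
      mem_closedBall_zero_iff.2 b2, rfl⟩, ?_⟩, t⟩
    linarith [QQ_lsc hR t ((s2.pow 2).const_sub 1) (hV.mono fun f hf => by
      simp only [id]; linarith [k f hf])]
  obtain ⟨δ, hδ⟩ : ∃ δ : ℝ, δ = 1 / (1 + 2 * R ^ 2) := ⟨_, rfl⟩
  have δ0 : 0 < δ := by rw [hδ]; positivity
  have bl : ∀ b : X →L[ℝ] ℝ, ‖b‖ ≤ 1 → δ • b ∈ D := fun b hb => sc 1 b δ zero_le_one
    ⟨_, ne.some_mem, _, ne.some_mem, b, mem_closedBall_zero_iff.2 hb, by simp⟩ δ0.le (by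
      have a : QQ Γ b ≤ 2 * (‖b‖ * R) ^ 2 := ciSup_le fun i => qq_bd hR i b
      have c : ‖b‖ ^ 2 ≤ 1 := by nlinarith [norm_nonneg b]
      have d : δ * (1 + 2 * R ^ 2) = 1 := by rw [hδ]; field_simp
      have e : δ ≤ 1 := by nlinarith [sq_nonneg R]
      have f : 1 ^ 2 + QQ Γ b ≤ 1 + 2 * R ^ 2 := by nlinarith [sq_nonneg R]
      nlinarith [mul_le_mul_of_nonneg_left f (sq_nonneg δ)])
  choose F F1 F2 using dp.mx ⟨_, bl 0 (by simp)⟩
  have H : Sup D fun x => F x x := ⟨fun x => ⟨_, F1 x, rfl⟩, fun g hg x => F2 x g hg⟩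
  generalize (fun x => F x x) = N at H
  obtain ⟨M, M0, hM⟩ := dp.bdd
  have lo : ∀ x, δ * ‖x‖ ≤ N x := fun x => by
    obtain ⟨b, b1, b2⟩ := exists_dual_vector'' ℝ x
    simpa [show b x = ‖x‖ from b2] using H.le _ (bl b b1) x
  have ps : ∀ x, x ≠ 0 → 0 < N x := fun x hx => (mul_pos δ0 (norm_pos_iff.2 hx)).trans_le (lo x)
  refine ⟨N, fun x y => ?_, fun r x => ?_, ⟨δ, M + 1, δ0, by linarith, fun x => ⟨lo x, ?_⟩⟩,
    fun x hx => ?_, fun x hx df => ?_⟩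
  · obtain ⟨f, f1, f2⟩ := H.ex (x + y)
    rw [← f2, map_add]
    exact add_le_add (H.le f f1 x) (H.le f f1 y)
  · obtain ⟨f, f1, f2⟩ := H.ex (r • x)
    obtain ⟨g, g1, g2⟩ := H.ex x
    have a1 := H.le f f1 x
    have a2 := H.le _ (ng f f1) x
    have a3 := H.le g g1 (r • x)
    have a4 := H.le _ (ng g g1) (r • x)
    simp only [map_smul, smul_eq_mul, neg_apply] at *
    rcases abs_cases r with ⟨e, k⟩ | ⟨e, k⟩ <;> rw [e] <;> apply le_antisymm <;> nlinarith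
  · obtain ⟨f, f1, f2⟩ := H.ex x
    nlinarith [le_abs_self (f x), show |f x| ≤ M * ‖x‖ from f.le_of_opNorm_le (hM f f1) x,
      norm_nonneg x]
  · obtain ⟨f, f1, f2⟩ := H.ex x
    refine ⟨f, H.gat dp f1 f2 fun g g1 g2 => by_contra fun k => ?_⟩
    obtain ⟨γ, j1, j2⟩ : ∃ γ ∈ Γ, g γ ≠ f γ := by_contra fun j => k (sub_eq_zero.1 (sp _ fun γ i =>
      sub_eq_zero.2 (by_contra fun m => j ⟨γ, i, m⟩)))
    have q := QQ_st hR hΓ j1 j2
    obtain ⟨s, a, ⟨c, c1, d, d1, b, b1, e⟩, k⟩ := (hD f).1 f1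
    obtain ⟨s', a', ⟨c', c1', d', d1', b', b1', e'⟩, k'⟩ := (hD g).1 g1
    obtain ⟨c₀, c2, c3⟩ := cv.exists_mem_add_smul_eq c1' c1 a' a
    obtain ⟨d₀, d2, d3⟩ := cv.exists_mem_add_smul_eq d1' d1 a' a
    obtain ⟨b₀, b2, b3⟩ := (convex_closedBall _ _).exists_mem_add_smul_eq b1' b1 a' a
    obtain ⟨u, hu⟩ : ∃ u, u = 4 - ((s' + s) ^ 2 + QQ Γ (g + f)) := ⟨_, rfl⟩
    have u0 : 0 < u := by nlinarith [sq_nonneg (s' - s)]
    have := H.le _ (sc (s' + s) (g + f) (1 / 2 + u / 16) (by positivity) ⟨c₀, c2, d₀, d2, b₀, b2, by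
      rw [c3, d3, b3, e, e']; abel⟩ (by positivity) (by
        rw [show (s' + s) ^ 2 + QQ Γ (g + f) = 4 - u by linarith]
        nlinarith [mul_pos u0 (mul_pos u0 u0), mul_pos u0 u0])) x
    simp only [smul_apply, add_apply, smul_eq_mul, f2, g2] at this
    nlinarith [mul_pos u0 (ps x hx)]
  obtain ⟨f, f1, f2⟩ := H.ex x
  obtain ⟨s, a, ⟨c, c1, d, d1, b, b1, e⟩, k⟩ := (hD f).1 f1
  have s0 : 0 < s := a.lt_of_ne fun j => (ps x hx).ne' (by simp [← f2, e, ← j])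
  obtain ⟨τ, τ0, hτ⟩ := Metric.nhds_basis_closedBall.eventually_iff.1 (Asymptotics.isLittleO_iff.1
    (hasFDerivAt_iff_isLittleO_nhds_zero.1 df.hasFDerivAt) (show 0 < s * ε / 4 by positivity))
  have key : ∀ᶠ η in 𝓝[>] (0 : ℝ), (1 - 5 * η) * (2 * N x - 2 * η + τ * s * ε) ≤
      2 * N x + τ * s * ε / 2 := by
    filter_upwards [Ioo_mem_nhdsGT (show (0 : ℝ) < 1 / 5 by norm_num)] with η ⟨η0, η1⟩
    obtain ⟨g, g1, h, h1, l1, l2⟩ := gd c c1 x η η0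
    obtain ⟨v, v1, v2⟩ := exv l1
    have m : ∀ g ∈ C, (∀ γ ∈ insert x Γ, |g γ - c γ| ≤ η) → ∀ y,
        (1 - 5 * η) * (N x - η + (s * g y - s * d y + s * b y)) ≤ N (x + y) := fun g g1 g2 y => by
      have n : ∀ γ ∈ insert x Γ, |(s • g - s • d + s • b) γ - f γ| ≤ η := fun γ j => by
        have : (s • g - s • d + s • b) γ - f γ = s * (g γ - c γ) := by simp [e]; ring
        rw [this, abs_mul, abs_of_pos s0]
        nlinarith [s1 s f a k, g2 γ j, abs_nonneg (g γ - c γ)]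
      have q := QQ_le hR (f := s • g - s • d + s • b) (g := f) (h := 0) (a := 1 + η) (b := 0)
        (η := η ^ 2 + η) (by positivity) (by positivity) le_rfl fun γ j => by
          have := sq_le_sq' (abs_le.1 (n γ (Or.inr j))).1 (abs_le.1 (n γ (Or.inr j))).2
          generalize (s • g - s • d + s • b) γ = p at *
          refine le_of_mul_le_mul_left ?_ η0
          nlinarith [sq_nonneg (η * f γ - (p - f γ)), mul_le_mul_of_nonneg_left this η0.le]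
      have o := H.le _ (sc s _ (1 - 5 * η) a ⟨g, g1, d, d1, b, b1, rfl⟩ (by linarith) (by
        have : s ^ 2 + QQ Γ (s • g - s • d + s • b) ≤ 1 + 5 * η := by
          nlinarith [QQ0 hR f, sq_nonneg s]
        nlinarith [mul_le_mul_of_nonneg_left this (sq_nonneg (1 - 5 * η)), mul_pos η0 η0,
          mul_pos η0 (mul_pos η0 η0)])) (x + y)
      refine le_trans ?_ o
      rw [smul_apply, map_add, smul_eq_mul]
      refine mul_le_mul_of_nonneg_left (add_le_add ?_ (by simp)) (by linarith)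
      linarith [(abs_le.1 (n x (Or.inl rfl))).1]
    have t1 : ‖τ • v‖ ≤ τ := by
      rw [norm_smul, Real.norm_of_nonneg τ0.le]
      exact mul_le_of_le_one_right τ0.le v1
    have r1 := m g g1 (fun γ j => (l2 γ j).1) (τ • v)
    have r2 := m h h1 (fun γ j => (l2 γ j).2) (-(τ • v))
    have r3 := (abs_le.1 (hτ (mem_closedBall_zero_iff.2 t1))).2
    have r4 := (abs_le.1 (hτ (mem_closedBall_zero_iff.2 ((norm_neg _).trans_le t1)))).2
    have r5 := mul_le_mul_of_nonneg_left t1 (show 0 ≤ s * ε / 4 by positivity)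
    have r6 := mul_le_mul_of_nonneg_left (mul_le_mul_of_nonneg_left v2.le (mul_pos τ0 s0).le)
      (show 0 ≤ 1 - 5 * η by linarith)
    simp only [map_neg, norm_neg, map_smul, smul_eq_mul, sub_apply] at *
    nlinarith
  have : Continuous fun η : ℝ => (1 - 5 * η) * (2 * N x - 2 * η + τ * s * ε) := by fun_prop
  have := le_of_tendsto ((this.tendsto 0).mono_left nhdsWithin_le_nhds) key
  nlinarith [mul_pos (mul_pos τ0 s0) e0]

end Pool.Agent.H.MP_df74ac_an
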