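import Pool.Agent.H.MP_df74ac_an.C
import Pool.Agent.Lib.helper23.Eke

namespace Pool.Agent.H.MP_df74ac_an

open Set Filter Topology Submodule

variable {X : Type} [NormedAddCommGroup X] [NormedSpace ℝ X] {N : X → ℝ} {c M ε : ℝ} {x : X}
  {L : X →L[ℝ] ℝ}

structure Nm (N : X → ℝ) (c M : ℝ) : Prop where
  ad : ∀ x y, N (x + y) ≤ N x + N y
  sm : ∀ (r : ℝ) x, N (r • x) = |r| * N x
  c0 : 0 < c
  M0 : 0 < M
  bd : ∀ x, c * ‖x‖ ≤ N x ∧ N x ≤ M * ‖x‖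
  ga : ∀ x, x ≠ 0 → ∃ L : X →L[ℝ] ℝ, ∀ v, HasDerivAt (fun t : ℝ => N (x + t • v)) (L v) 0

lemma Nm.nn (H : Nm N c M) (x : X) : 0 ≤ N x := (mul_nonneg H.c0.le (norm_nonneg x)).trans (H.bd x).1

lemma Nm.ng (H : Nm N c M) (x : X) : N (-x) = N x := by simpa using H.sm (-1) x

lemma Nm.lp (H : Nm N c M) (x y : X) : N x - N y ≤ M * ‖x - y‖ := by
  linarith [H.ad y (x - y), (H.bd (x - y)).2, show N (y + (x - y)) = N x by simp]

lemma Nm.lip (H : Nm N c M) : LipschitzWith M.toNNReal N :=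
  LipschitzWith.of_le_add_mul' M fun x y => by rw [dist_eq_norm]; linarith [H.lp x y]

lemma Nm.dl (H : Nm N c M) (h : ∀ v, HasDerivAt (fun t : ℝ => N (x + t • v)) (L v) 0) (v : X) :
    L v ≤ N v := le_of_tendsto (h v).tendsto_slope_zero_right (eventually_nhdsWithin_of_forall
  fun t (ht : 0 < t) => by
    have := H.ad x (t • v)
    rw [H.sm, abs_of_pos ht] at this
    simp only [zero_add, zero_smul, add_zero, smul_eq_mul]
    rw [inv_mul_le_iff₀ ht]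
    linarith)

lemma Nm.de (H : Nm N c M) (h : ∀ v, HasDerivAt (fun t : ℝ => N (x + t • v)) (L v) 0) : L x = N x :=
  (h x).unique (((((hasDerivAt_id (0 : ℝ)).const_add 1).mul_const (N x)).congr_deriv
    (one_mul _)).congr_of_eventuallyEq (by
      filter_upwards [lt_mem_nhds (show (-1 : ℝ) < 0 by norm_num)] with t ht
      rw [show x + t • x = (1 + t) • x by module, H.sm, abs_of_pos (by linarith), id]))

lemma Nm.un (h : ∀ v, HasDerivAt (fun t : ℝ => N (x + t • v)) (L v) 0) (g : X →L[ℝ] ℝ)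
    (g1 : g ∈ {g : X →L[ℝ] ℝ | ∀ v, g v ≤ N v}) (g2 : g x = N x) : g = L := by
  ext v
  have := IsLocalMin.hasDerivAt_eq_zero (Eventually.of_forall fun t => by
    simpa [g2, le_sub_iff_add_le] using g1 (x + t • v))
      ((h v).fun_sub ((hasDerivAt_id' (0 : ℝ)).mul_const (g v)))
  linarith

lemma Nm.sup (H : Nm N c M) : Sup {g : X →L[ℝ] ℝ | ∀ v, g v ≤ N v} N := ⟨fun x => by
  rcases eq_or_ne x 0 with rfl | h
  · exact ⟨0, H.nn, by simpa using (H.sm 0 0).symm⟩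
  · obtain ⟨L, hL⟩ := H.ga x h
    exact ⟨L, H.dl hL, H.de hL⟩, fun _ h => h⟩

lemma Nm.ab (H : Nm N c M) {g : X →L[ℝ] ℝ} (h : ∀ v, g v ≤ N v) (v : X) : |g v| ≤ N v :=
  abs_le.2 ⟨by linarith [h (-v), H.ng v, map_neg g v], h v⟩

lemma Nm.ws (H : Nm N c M) (x : X) (r : ℝ) : WS {g : X →L[ℝ] ℝ | (∀ v, g v ≤ N v) ∧ r ≤ g x} :=
  ws_of fun V hV => by
    obtain ⟨z, -, k⟩ := blim V (g := id) (mem_of_superset hV fun g hg =>
      g.opNorm_le_bound H.M0.le fun v => (H.ab hg.1 v).trans (H.bd v).2)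
    exact ⟨z, ⟨fun v => le_of_tendsto (k v) (mem_of_superset hV fun g hg => hg.1 v),
      ge_of_tendsto (k x) (mem_of_superset hV fun g hg => hg.2)⟩, k⟩

lemma Nm.sq (H : Nm N c M) (y : X) :
    ∃ L : X →L[ℝ] ℝ, ∀ v, HasDerivAt (fun t : ℝ => N (y + t • v) ^ 2) (L v) 0 := by
  rcases eq_or_ne y 0 with rfl | h
  · refine ⟨0, fun v => ?_⟩
    simp only [zero_add, H.sm, mul_pow, sq_abs]
    simpa using (hasDerivAt_pow 2 (0 : ℝ)).mul_const (N v ^ 2)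
  · obtain ⟨L, hL⟩ := H.ga y h
    exact ⟨(2 * N y) • L, fun v => ((hL v).fun_pow 2).congr_deriv (by simp)⟩

lemma Nm.pp (H : Nm N c M) {Q : X →L[ℝ] X} (hQ : ∀ x, N (Q x) ≤ 2 * N x) :
    ∃ p, Nm p c (3 * M) ∧ ∀ x, p x ^ 2 = N x ^ 2 + N (Q x) ^ 2 := by
  have e : ∀ x, √(N x ^ 2 + N (Q x) ^ 2) ^ 2 = N x ^ 2 + N (Q x) ^ 2 := fun x =>
    Real.sq_sqrt (by positivity)
  refine ⟨fun x => √(N x ^ 2 + N (Q x) ^ 2), ⟨fun x y => Real.sqrt_le_iff.2 ⟨by positivity, ?_⟩,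
    fun r x => ?_, H.c0, by linarith [H.M0], fun x => ⟨(H.bd x).1.trans (Real.le_sqrt_of_sq_le
      (by nlinarith)), Real.sqrt_le_iff.2 ⟨by have := H.M0; positivity, ?_⟩⟩, fun x hx => ?_⟩, e⟩
  · have a : N x * N y + N (Q x) * N (Q y) ≤ √(N x ^ 2 + N (Q x) ^ 2) * √(N y ^ 2 + N (Q y) ^ 2) := by
      rw [← Real.sqrt_mul (by positivity)]
      exact Real.le_sqrt_of_sq_le (by nlinarith [sq_nonneg (N x * N (Q y) - N y * N (Q x))])
    have b := pow_le_pow_left₀ (H.nn _) (H.ad x y) 2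
    have d := pow_le_pow_left₀ (H.nn _) (H.ad (Q x) (Q y)) 2
    rw [map_add]
    nlinarith [e x, e y]
  · rw [map_smul, H.sm, H.sm, mul_pow, mul_pow, ← mul_add, Real.sqrt_mul (sq_nonneg _),
      Real.sqrt_sq (abs_nonneg r)]
  · nlinarith [pow_le_pow_left₀ (H.nn _) (hQ x) 2, pow_le_pow_left₀ (H.nn _) (H.bd x).2 2,
      sq_nonneg (N x)]
  · obtain ⟨L, hL⟩ := H.sq x
    obtain ⟨K, hK⟩ := H.sq (Q x)
    have := (mul_pos H.c0 (norm_pos_iff.2 hx)).trans_le (H.bd x).1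
    refine ⟨(2 * √(N x ^ 2 + N (Q x) ^ 2))⁻¹ • (L + K ∘L Q), fun v => ?_⟩
    simp only [map_add, map_smul]
    exact (((hL v).fun_add (hK (Q v))).sqrt (by simp only [zero_smul, add_zero]; positivity)).congr_deriv
      (by simp [div_eq_inv_mul, mul_add])

def PCP (X : Type) [NormedAddCommGroup X] [NormedSpace ℝ X] : Prop :=
  ∀ C : Set (X →L[ℝ] ℝ), C.Nonempty → Convex ℝ C → WS C →
    ∃ z ∈ C, ∀ ε : ℝ, 0 < ε → ∃ U, WO U ∧ z ∈ U ∧ ∀ y ∈ C ∩ U, ‖y - z‖ < ε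

lemma exf (h : ¬ FiniteDimensional ℝ X) (F : Finset X) :
    ∃ f : X →L[ℝ] ℝ, (∃ x, 0 < f x) ∧ ∀ x ∈ F, f x = 0 := by
  obtain ⟨x, hx⟩ : ∃ x, x ∉ span ℝ (F : Set X) := by
    by_contra k
    push Not at k
    exact h ⟨⟨F, eq_top_iff'.2 k⟩⟩
  obtain ⟨f, u, h1, h2⟩ := geometric_hahn_banach_point_closed (span ℝ (F : Set X)).convex
    (closed_of_finiteDimensional _) hx
  refine ⟨f, ⟨-x, by linarith [h2 0 (zero_mem _), map_zero f, map_neg f x]⟩, fun y hy =>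
    by_contra fun k => ?_⟩
  have := h2 _ (smul_mem _ (u / f y) (subset_span hy))
  simp [k] at this

lemma Nm.small [CompleteSpace X] (H : Nm N c M) (hP : PCP X) (fd : ¬ FiniteDimensional ℝ X)
    (hx : N x = 1) {η : ℝ} (η0 : 0 < η) (e0 : 0 < ε) : ∃ y ≠ 0, (∃ L : X →L[ℝ] ℝ, (∀ v, L v ≤ N v) ∧
      L y = N y ∧ 1 - η < L x) ∧ ∃ s > 0, ∀ t > 0, t < s → ∀ h, ‖h‖ ≤ 1 →
        N (y + t • h) + N (y - t • h) - 2 * N y ≤ ε * t := by
  obtain ⟨g₀, g1, g2⟩ := H.sup.ex x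
  have cv : ∀ f g : X →L[ℝ] ℝ, (∀ v, f v ≤ N v) → (∀ v, g v ≤ N v) → ∀ a b : ℝ, 0 ≤ a → 0 ≤ b →
      a + b = 1 → ∀ v, (a • f + b • g) v ≤ N v := fun f g hf hg a b ha hb e v => by
    obtain rfl : b = 1 - a := by linarith
    simp only [add_apply, smul_apply, smul_eq_mul]
    nlinarith [hf v, hg v]
  obtain ⟨z, ⟨z1, z2⟩, hz⟩ := hP {g | (∀ v, g v ≤ N v) ∧ 1 - η ≤ g x} ⟨g₀, g1, by linarith⟩ (fun f hf g hg a b ha hb e =>
    ⟨cv f g hf.1 hg.1 a b ha hb e, by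
      obtain rfl : b = 1 - a := by linarith
      simp only [add_apply, smul_apply, smul_eq_mul]
      nlinarith [hf.2, hg.2]⟩) (H.ws x (1 - η))
  obtain ⟨U, hU, zU, hU'⟩ := hz (ε / 2) (half_pos e0)
  obtain ⟨s, s0, s1, hs⟩ := hU.seg zU g₀
  have w1 := cv z g₀ z1 g1 (1 - s) s (by linarith) s0.le (by ring)
  have w2 : 1 - η < ((1 - s) • z + s • g₀) x := by
    simp only [add_apply, smul_apply, smul_eq_mul]
    nlinarith
  generalize (1 - s) • z + s • g₀ = w at hs w1 w2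
  have hV := hU.inter (wo_gt x (1 - η))
  obtain ⟨F, r, r0, hr⟩ := hV.basic ⟨hs, w2⟩
  obtain ⟨k, k0, hk⟩ : ∃ k > 0, ∀ x ∈ F, k * ‖x‖ < r := by
    have := Finset.sum_nonneg fun (x : X) (_ : x ∈ F) => norm_nonneg x
    refine ⟨r / (∑ x ∈ F, ‖x‖ + 1), by positivity, fun x hx => ?_⟩
    rw [div_mul_eq_mul_div, div_lt_iff₀ (by positivity)]
    nlinarith [Finset.single_le_sum (fun (x : X) (_ : x ∈ F) => norm_nonneg x) hx]
  obtain ⟨f, ⟨u, hu⟩, f1, f2⟩ : ∃ f : X →L[ℝ] ℝ, (∃ x, 0 < f x) ∧ (∀ x ∈ F, f x = 0) ∧ ‖f‖ ≤ k := by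
    obtain ⟨f, ⟨u, hu⟩, f1⟩ := exf fd F
    refine ⟨(k / (‖f‖ + 1)) • f, ⟨u, mul_pos (by positivity) hu⟩, fun x hx => by simp [f1 x hx], ?_⟩
    rw [norm_smul, Real.norm_of_nonneg (by positivity), div_mul_eq_mul_div, div_le_iff₀ (by positivity)]
    linarith
  obtain ⟨g, x₀, j1, j2, j3⟩ : ∃ (g : X →L[ℝ] ℝ) (x₀ : X), (∀ v, g v ≤ N v) ∧ (∀ x ∈ F, g x = w x) ∧
      N x₀ < g x₀ + f x₀ := by
    by_contra j
    push Not at j
    have : ∀ n : ℕ, ∀ v, (w + (n : ℝ) • f) v ≤ N v := fun n => by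
      induction n with
      | zero => simpa using w1
      | succ n ih =>
        intro v
        have := j _ v ih fun x hx => by simp [f1 x hx]
        simp only [add_apply, smul_apply, smul_eq_mul, Nat.cast_succ] at *
        linarith
    obtain ⟨n, hn⟩ := exists_nat_gt ((N u - w u) / f u)
    have := this n u
    rw [div_lt_iff₀ hu] at hn
    simp only [add_apply, smul_apply, smul_eq_mul] at this
    linarith
  obtain ⟨y, y1, y2⟩ := Pool.Agent.Lib.helper23.Eke.ekeland (fun v => g v - N v)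
    (g.continuous.sub H.lip.continuous) (fun v => sub_nonpos.2 (j1 v)) x₀ k0
  have y0 : y ≠ 0 := by
    rintro rfl
    rw [dist_zero_left] at y1
    linarith [j1 0, le_abs_self (f x₀), show |f x₀| ≤ k * ‖x₀‖ from f.le_of_opNorm_le f2 x₀]
  obtain ⟨L, hL⟩ := H.ga y y0
  have l1 : ∀ v, g v - k * ‖v‖ ≤ L v := fun v => ge_of_tendsto (hL v).tendsto_slope_zero_right
    (eventually_nhdsWithin_of_forall fun t (ht : 0 < t) => by
      have := y2 (y + t • v)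
      rw [dist_self_add_left, norm_smul, Real.norm_of_nonneg ht.le, map_add, map_smul] at this
      simp only [zero_add, zero_smul, add_zero, smul_eq_mul] at *
      rw [le_inv_mul_iff₀ ht]
      linarith)
  have LV := hr L fun x hx => abs_lt.2 ⟨by linarith [l1 x, hk x hx, j2 x hx],
    by
      have := l1 (-x)
      rw [norm_neg, map_neg, map_neg] at this
      linarith [hk x hx, j2 x hx]⟩
  obtain ⟨τ, τ0, hτ⟩ := H.sup.slice (by simpa using H.ws 0 0) (Nm.un hL) hV LV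
  have M0 := H.M0
  refine ⟨y, y0, ⟨L, H.dl hL, H.de hL, LV.2⟩, τ / (2 * M), by positivity, fun t t0 t1 h h1 => ?_⟩
  have m : ∀ v, ‖v‖ ≤ t → ∃ g : X →L[ℝ] ℝ, g y ≤ N y ∧ N (y + v) = g y + g v ∧ ‖g - z‖ < ε / 2 :=
    fun v hv => by
      obtain ⟨g, a, b⟩ := H.sup.ex (y + v)
      rw [map_add] at b
      have i := hτ g a (by
        rw [lt_div_iff₀ (by positivity)] at t1
        have := H.lp y (y + v)
        rw [sub_add_cancel_left, norm_neg] at this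
        nlinarith [a v, (H.bd v).2])
      exact ⟨g, a y, b.symm, hU' g ⟨⟨a, le_of_lt i.2⟩, i.1⟩⟩
  have t2 : ‖t • h‖ ≤ t := by
    rw [norm_smul, Real.norm_of_nonneg t0.le]
    exact mul_le_of_le_one_right t0.le h1
  obtain ⟨a, a1, a2, a3⟩ := m _ t2
  obtain ⟨b, b1, b2, b3⟩ := m _ ((norm_neg _).trans_le t2)
  have a4 := (abs_le.1 ((a - z).le_of_opNorm_le a3.le (t • h))).2
  have b4 := (abs_le.1 ((b - z).le_of_opNorm_le b3.le (t • h))).1
  rw [sub_apply] at a4 b4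
  rw [sub_eq_add_neg y, a2, b2, map_neg]
  nlinarith

def OO (N : X → ℝ) (ε : ℝ) : Set X :=
  {x | ∃ t > 0, ∃ e < ε, ∀ h, ‖h‖ ≤ 1 → N (x + t • h) + N (x - t • h) - 2 * N x ≤ e * t}

lemma Nm.op (H : Nm N c M) : IsOpen (OO N ε) := Metric.isOpen_iff.2 fun x ⟨t, t0, e, e1, h⟩ => by
  have M0 := H.M0
  refine ⟨(ε - e) * t / (8 * M), by have := sub_pos.2 e1; positivity, fun y hy =>
    ⟨t, t0, (ε + e) / 2, by linarith, fun v hv => ?_⟩⟩
  rw [mem_ball_iff_norm, lt_div_iff₀ (by positivity)] at hy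
  have a := H.lp (y + t • v) (x + t • v)
  have b := H.lp (y - t • v) (x - t • v)
  have d := H.lp x y
  rw [add_sub_add_right_eq_sub] at a
  rw [sub_sub_sub_cancel_right] at b
  rw [norm_sub_rev] at d
  linarith [h v hv]

lemma Nm.sc (H : Nm N c M) (hx : x ∈ OO N ε) {a : ℝ} (ha : a ≠ 0) : a • x ∈ OO N ε := by
  obtain ⟨t, t0, e, e1, h⟩ := hx
  refine ⟨|a| * t, by positivity, e, e1, fun v hv => ?_⟩
  have := mul_le_mul_of_nonneg_left (h ((|a| / a) • v) (by simpa [norm_smul, ha])) (abs_nonneg a)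
  have k : (|a| * t) • v = a • t • (|a| / a) • v := by
    rw [smul_smul, smul_smul]
    congr 1
    field_simp
  rw [k, ← smul_add, ← smul_sub, H.sm, H.sm, H.sm]
  linarith

lemma Nm.near [CompleteSpace X] (H : Nm N c M) (hP : PCP X) (fd : ¬ FiniteDimensional ℝ X)
    (hx : N x = 1) (e0 : 0 < ε) {δ : ℝ} (δ0 : 0 < δ) : ∃ y ∈ OO N ε, ‖y - x‖ ≤ δ := by
  obtain ⟨f, f1, f2⟩ := H.sup.ex x
  obtain ⟨Q, hQ⟩ : ∃ Q : X →L[ℝ] X, ∀ y, Q y = y + (-f y) • x :=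
    ⟨.id ℝ X - f.smulRight x, fun y => by simp [sub_eq_add_neg]⟩
  obtain ⟨p, P, hp⟩ := H.pp (Q := Q) fun y => by
    have := H.ad y ((-f y) • x)
    rw [H.sm, abs_neg, hx, ← hQ] at this
    linarith [H.ab f1 y]
  have n0 : N 0 = 0 := by simpa using H.sm 0 0
  have q0 : Q x = 0 := by simp [hQ, f2, hx]
  have c0 := H.c0
  have M0 := H.M0
  obtain ⟨θ, θ0, θ1, θ2⟩ : ∃ θ > 0, θ ≤ 1 / 4 ∧ θ ≤ c * δ / 2 :=
    ⟨min _ _, by positivity, min_le_left _ _, min_le_right _ _⟩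
  obtain ⟨y, y0, ⟨L, l1, l2, l3⟩, s, s0, hs⟩ := P.small hP fd (x := x) (by
    have := hp x
    rw [q0, n0, hx] at this
    nlinarith [P.nn x]) (show 0 < θ ^ 2 / 4 by positivity) (show 0 < ε / 4 by positivity)
  have p0 := (mul_pos c0 (norm_pos_iff.2 y0)).trans_le (P.bd y).1
  have a1 : (1 - θ ^ 2 / 2) * p y ≤ N y := by
    obtain ⟨η, hη⟩ : ∃ η, η = θ ^ 2 / 4 := ⟨_, rfl⟩
    have η0 : 0 < η := by rw [hη]; positivity
    have η1 : η ≤ 1 := by nlinarith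
    have r0 := mul_pos η0 p0
    have b1 := l1 (y + (η * p y) • x)
    have b2 := hp (y + (η * p y) • x)
    have b3 := H.ad y ((η * p y) • x)
    rw [map_add, map_smul, q0, smul_zero, add_zero] at b2
    rw [map_add, map_smul, l2, smul_eq_mul] at b1
    rw [H.sm, hx, abs_of_pos r0, mul_one] at b3
    have b4 := pow_le_pow_left₀ (H.nn _) b3 2
    have b5 : (p y + η * p y * (1 - η)) ^ 2 ≤ p (y + (η * p y) • x) ^ 2 :=
      pow_le_pow_left₀ (by nlinarith) (by rw [← hη] at l3; nlinarith) 2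
    rw [show θ ^ 2 / 2 = 2 * η by linarith]
    refine le_of_mul_le_mul_left ?_ r0
    nlinarith [hp y, sq_nonneg (η * p y * (1 - η)), sq_nonneg (η * p y)]
  have a2 : N (Q y) ≤ θ * p y := by
    refine le_of_sq_le_sq (le_of_add_le_add_left (a := N y ^ 2) ?_) (by positivity)
    have := pow_le_pow_left₀ (mul_nonneg (by nlinarith) p0.le) a1 2
    nlinarith [hp y, sq_nonneg (θ ^ 2 * p y)]
  have a3 : p y ≤ 2 * |f y| ∧ p y ≤ 2 * N y := by
    have := H.ad (Q y) (f y • x)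
    rw [H.sm, hx, hQ, neg_smul, neg_add_cancel_right, ← neg_smul, ← hQ] at this
    constructor <;> nlinarith [mul_pos p0 θ0]
  have a4 : f y ≠ 0 := fun k => by rw [k, abs_zero] at a3; linarith
  refine ⟨_, H.sc (x := y) ?_ (inv_ne_zero a4), le_of_mul_le_mul_left ((H.bd _).1.trans ?_) c0⟩
  swap
  · rw [show (f y)⁻¹ • y - x = (f y)⁻¹ • Q y by simp [hQ, smul_smul, a4, sub_eq_add_neg], H.sm, abs_inv,
      inv_mul_le_iff₀ (abs_pos.2 a4)]
    nlinarith [abs_nonneg (f y)]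
  have n1 : 0 < N y := by linarith
  obtain ⟨t, t0, t1, t2⟩ : ∃ t > 0, t < s ∧ t ≤ N y * ε / (36 * M ^ 2) :=
    ⟨min (s / 2) _, by positivity, (min_le_left _ _).trans_lt (by linarith), min_le_right _ _⟩
  rw [le_div_iff₀ (by positivity)] at t2
  refine ⟨t, t0, 3 * ε / 4, by linarith, fun h h1 => le_of_mul_le_mul_left ?_ n1⟩
  have t3 : ‖t • h‖ ≤ t := by
    rw [norm_smul, Real.norm_of_nonneg t0.le]
    exact mul_le_of_le_one_right t0.le h1
  have m : ∀ v, ‖v‖ ≤ t → (p (y + v) - p y) ^ 2 ≤ (3 * M * t) ^ 2 := fun v hv => by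
    have a := P.lp (y + v) y
    have b := P.lp y (y + v)
    rw [add_sub_cancel_left] at a
    rw [sub_add_cancel_left, norm_neg] at b
    exact sq_le_sq' (by nlinarith) (by nlinarith)
  have b1 := m _ t3
  have b2 := m _ ((norm_neg _).trans_le t3)
  rw [← sub_eq_add_neg] at b2
  have b3 := H.ad (Q (y + t • h)) (Q (y - t • h))
  rw [← map_add, add_add_sub_cancel, ← two_smul ℝ y, map_smul, H.sm, abs_two] at b3
  have b4 := pow_le_pow_left₀ (by linarith [H.nn (Q y)]) b3 2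
  have b5 := mul_le_mul_of_nonneg_left (hs t t0 t1 h h1) p0.le
  have b6 := mul_le_mul_of_nonneg_right a3.2 (mul_pos e0 t0).le
  have b7 := mul_le_mul_of_nonneg_left t2 t0.le
  nlinarith [hp y, hp (y + t • h), hp (y - t • h), sq_nonneg (N (Q (y + t • h)) - N (Q (y - t • h))),
    sq_nonneg (N (y + t • h) - N y), sq_nonneg (N (y - t • h) - N y)]

lemma Nm.fr [CompleteSpace X] [Nontrivial X] (H : Nm N c M) (hP : PCP X) :
    ∃ x ≠ 0, DifferentiableAt ℝ N x := by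
  by_cases fd : FiniteDimensional ℝ X
  · obtain ⟨x, hx⟩ := exists_ne (0 : X)
    obtain ⟨L, hL⟩ := H.ga x hx
    exact ⟨x, hx, (H.lip.hasFDerivAt_of_hasLineDerivAt_of_closure (s := univ) (by simp)
      fun v _ => hL v).differentiableAt⟩
  obtain ⟨x, x1, x0⟩ := (dense_iInter_of_isOpen (f := fun n : ℕ => OO N (1 / (n + 1))) (fun _ => H.op)
    fun n => dense_closure.1 ((dense_compl_singleton (0 : X)).mono fun x hx =>
      Metric.closure_eq_iInter_cthickening (OO N (1 / (n + 1))) ▸ mem_iInter₂.2 fun δ hδ => by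
        have p := (mul_pos H.c0 (norm_pos_iff.2 hx)).trans_le (H.bd x).1
        obtain ⟨y, y1, y2⟩ := H.near hP fd (x := (N x)⁻¹ • x) (ε := 1 / (n + 1))
          (by rw [H.sm, abs_of_pos (inv_pos.2 p), inv_mul_cancel₀ p.ne']) (by positivity) (div_pos hδ p)
        refine Metric.mem_cthickening_of_dist_le _ _ _ _ (H.sc y1 p.ne') ?_
        rw [dist_eq_norm', show N x • y - x = N x • (y - (N x)⁻¹ • x) by simp [smul_sub, smul_smul, p.ne'],
          norm_smul, Real.norm_of_nonneg p.le]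
        rwa [le_div_iff₀' p] at y2)).exists_mem_open isOpen_compl_singleton (exists_ne (0 : X))
  obtain ⟨L, hL⟩ := H.ga x x0
  refine ⟨x, x0, HasFDerivAt.differentiableAt (f' := L) (hasFDerivAt_iff_isLittleO_nhds_zero.2
    (Asymptotics.isLittleO_iff.2 fun δ hδ => ?_))⟩
  obtain ⟨n, hn⟩ := exists_nat_one_div_lt hδ
  obtain ⟨t, t0, e, e1, k⟩ := mem_iInter.1 x1 n
  filter_upwards [Metric.ball_mem_nhds 0 t0] with h hh
  rw [mem_ball_zero_iff] at hh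
  rcases eq_or_ne h 0 with rfl | h0
  · simp
  have s0 := norm_pos_iff.2 h0
  have m : ∀ v, t * N (x + ‖h‖ • v) ≤ (t - ‖h‖) * N x + ‖h‖ * N (x + t • v) := fun v => by
    have := H.ad ((t - ‖h‖) • x) (‖h‖ • (x + t • v))
    rwa [show (t - ‖h‖) • x + ‖h‖ • (x + t • v) = t • (x + ‖h‖ • v) by module, H.sm, H.sm, H.sm,
      abs_of_pos t0, abs_of_pos s0, abs_of_pos (sub_pos.2 hh)] at this
  have a := m (‖h‖⁻¹ • h)
  have b := m (-(‖h‖⁻¹ • h))
  have d := mul_le_mul_of_nonneg_left (k (‖h‖⁻¹ • h) (norm_smul_inv_norm (𝕜 := ℝ) h0).le) s0.le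
  rw [smul_neg, smul_neg, ← sub_eq_add_neg, ← sub_eq_add_neg] at b
  rw [smul_inv_smul₀ s0.ne'] at a b
  have i := H.dl hL (x + h)
  have j := H.dl hL (x - h)
  rw [map_add, H.de hL] at i
  rw [map_sub, H.de hL] at j
  rw [Real.norm_of_nonneg (by linarith)]
  refine le_of_mul_le_mul_left ?_ t0
  nlinarith [mul_le_mul_of_nonneg_left j t0.le, mul_pos (mul_pos s0 t0) (sub_pos.2 (e1.trans hn))]

theorem fin (X : Type) [NormedAddCommGroup X] [NormedSpace ℝ X] [CompleteSpace X] [Nontrivial X]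
    (h : ∃ K : Set X, IsCompact (X := WeakSpace ℝ X) K ∧ Dense (span ℝ K : Set X)) :
    (∃ N : X → ℝ, (∀ x y : X, N (x + y) ≤ N x + N y) ∧ (∀ (r : ℝ) (x : X), N (r • x) = |r| * N x) ∧
      (∃ c₁ c₂ : ℝ, 0 < c₁ ∧ 0 < c₂ ∧ ∀ x : X, c₁ * ‖x‖ ≤ N x ∧ N x ≤ c₂ * ‖x‖) ∧
      (∀ x : X, x ≠ 0 → ∃ L : X →L[ℝ] ℝ, ∀ v : X, HasDerivAt (fun t : ℝ => N (x + t • v)) (L v) 0) ∧
      ∀ x : X, x ≠ 0 → ¬ DifferentiableAt ℝ N x) ↔ ¬ PCP X := by
  obtain ⟨K, k1, k2⟩ := h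
  refine ⟨fun ⟨N, a, b, ⟨c, M, c0, M0, d⟩, e, f⟩ hP => ?_, fun hP => ?_⟩
  · obtain ⟨x, x0, k⟩ := Nm.fr ⟨a, b, c0, M0, d, e⟩ hP
    exact f x x0 k
  unfold PCP at hP
  push Not at hP
  obtain ⟨D, d1, d2, d3, d4⟩ := hP
  obtain ⟨C, ε, e0, c1, c2, c3, c4⟩ := bad d1 d2 d3 d4
  obtain ⟨P, Γ, R, p1, p2, p3, p4⟩ := sepred (wc_of k1) (nonempty_iff_ne_empty.2 (by
    rintro rfl
    obtain ⟨x, hx⟩ := exists_ne (0 : X)
    simpa [hx] using k2 x)) k2 c3 c4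
  refine build (c1.image _) (c2.is_linear_image ⟨fun f g => rfl, fun a f => rfl⟩) (ws_of fun V hV => ?_)
    e0 p1 p2 p3 p4
  choose! g g1 g2 using fun f (hf : f ∈ (· ∘L P) '' C) => hf
  obtain ⟨z, z1, z2⟩ := c3.lim V (g := g) (mem_of_superset hV g1)
  exact ⟨_, ⟨z, z1, rfl⟩, fun x => (z2 (P x)).congr' (mem_of_superset hV fun f hf =>
    DFunLike.congr_fun (g2 f hf) x)⟩

end Pool.Agent.H.MP_df74ac_an
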